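import Pool.Agent.H65.CZF.TB

/-!
# Critical zeros of the complete family: the union over the fields
-/

set_option autoImplicit false

open NumberField NumberField.InfinitePlace Complex Filter Topology MeasureTheory Set

namespace Pool.Agent.H65.CZF

open Pool.Agent.H28.RC Pool.Agent.H37.CV Pool.Agent.H33.HH Pool.Agent.H33.HC
open Pool.Agent.H65.CRZ (zc St SZ Zx cA Bm b0 cc)
open Pool.Agent.H65.CRG (LFg VQ cQ kn pm qm CZ)

/-- the arithmetic of the assembly -/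
theorem alz_num {w zA zB s : ℝ} (hw : 0 ≤ w) (hA : zA ≤ (1 + 1 / 100000) * w)
    (hB : zB ≤ 1 / 100000 * w) (hs : 56006 / 100000 * ((1 - 1 / 100000) * w) ≤ s) :
    56 / 100 * (zA + zB) ≤ s := by
  linarith

/-- the tail -/
theorem alz_tail {C T L X Yr B c U w : ℝ} (hT : 0 < T) (hL : 1 ≤ L) (hX : 1 ≤ X)
    (hc : 0 < c)
    (hY : C * Yr ≤ 1 / 400000 * (c / Real.pi)) (hB : 400000 * (Real.pi * B) ≤ T * c * X)
    (hU : c * X ^ 2 ≤ U) (hw : w = T / Real.pi * (L / 2) * U) :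
    C * T * L * X ^ 2 * Yr + B ≤ 1 / 100000 * w := by
  have hpi := Real.pi_pos
  have h1 : C * T * L * X ^ 2 * Yr ≤ 1 / 200000 * (T / Real.pi * (L / 2) * (c * X ^ 2)) := by
    have h2 : C * T * L * X ^ 2 * Yr = (C * Yr) * (T * L * X ^ 2) := by ring
    have h3 : 1 / 200000 * (T / Real.pi * (L / 2) * (c * X ^ 2)) =
        1 / 400000 * (c / Real.pi) * (T * L * X ^ 2) := by ring
    rw [h2, h3]
    exact mul_le_mul_of_nonneg_right hY (by positivity)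
  have h4 : B ≤ 1 / 200000 * (T / Real.pi * (L / 2) * (c * X ^ 2)) := by
    have h5 : 1 / 200000 * (T / Real.pi * (L / 2) * (c * X ^ 2)) =
        T * c * X * (L * X) / (400000 * Real.pi) := by ring
    rw [h5, le_div_iff₀ (by positivity)]
    have h6 : 1 ≤ L * X := by nlinarith
    have h7 : T * c * X * 1 ≤ T * c * X * (L * X) :=
      mul_le_mul_of_nonneg_left h6 (by positivity)
    linarith
  have h8 : T / Real.pi * (L / 2) * (c * X ^ 2) ≤ w := by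
    rw [hw]
    exact mul_le_mul_of_nonneg_left hU (by positivity)
  linarith

theorem pf_ALZ (hKA : T_KAZ) (hUP : T_UPK) (hTL : T_TLZ) (hFN : T_FNZ) (hEN : T_ENA)
    (hTA : T_TAD) (hKK : T_KA) (hFD : T_FDS) : T_ALZ := by
  classical
  intro D hD hne K _ _ hK
  have hpi := Real.pi_pos
  obtain ⟨d₀, hd₀⟩ := hne
  have hIQ : ∀ d ∈ D, IQ (K d) := fun d hd =>
    ⟨(hK d hd).1, by rw [(hK d hd).2]; exact (hD d hd).2⟩
  have hDf : ∀ d ∈ D, IsFund d := fun d hd => (hD d hd).1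
  obtain ⟨C, T₁, hC, hT₁, hTL⟩ := hTL
  obtain ⟨CA, hCA, hTA⟩ := hTA
  have hTA' := hTA D hDf K hK
  -- the field of discriminant `d₀`
  have i3 : IQ (K d₀) := hIQ d₀ hd₀
  obtain ⟨t₀, ht₀⟩ : ∃ t₀ : ℝ, t₀ = |(d₀ : ℝ)| := ⟨_, rfl⟩
  have ht3 : 3 ≤ t₀ := by rw [ht₀]; exact (hFD d₀ (hDf d₀ hd₀)).1
  have ht0 : 0 < t₀ := by linarith
  obtain ⟨c, x3, hc, hx3, hlow⟩ := (hKK (K d₀)).1
  obtain ⟨c₀, hc₀⟩ : ∃ c₀ : ℝ, c₀ = c / t₀ ^ 2 := ⟨_, rfl⟩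
  have hc₀0 : 0 < c₀ := by rw [hc₀]; positivity
  obtain ⟨η, hη⟩ : ∃ η : ℝ, η = 1 / 400000 * (c₀ / Real.pi) := ⟨_, rfl⟩
  have hη0 : 0 < η := by rw [hη]; positivity
  obtain ⟨M, hM⟩ : ∃ M : ℝ, M = max (max 1 t₀) (C / η) := ⟨_, rfl⟩
  have hM1 : 1 ≤ M := by rw [hM]; exact (le_max_left _ _).trans (le_max_left _ _)
  have hMt : t₀ ≤ M := by rw [hM]; exact (le_max_right _ _).trans (le_max_left _ _)
  have hMC : C ≤ η * M := by
    have : C / η ≤ M := by rw [hM]; exact le_max_right _ _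
    rw [div_le_iff₀ hη0] at this
    linarith
  obtain ⟨Y, hY⟩ : ∃ Y : ℝ, Y = M ^ 4 := ⟨_, rfl⟩
  have hY1 : 1 ≤ Y := by rw [hY]; exact one_le_pow₀ hM1
  have hYt : t₀ ≤ Y := by
    rw [hY]
    exact hMt.trans (le_self_pow₀ hM1 (by norm_num))
  have hYC : C * Y ^ (-(1 / 4) : ℝ) ≤ η := by
    have e : Y ^ (-(1 / 4) : ℝ) = M⁻¹ := by
      rw [hY, ← Real.rpow_natCast, ← Real.rpow_mul (by linarith)]
      norm_num
      exact Real.rpow_neg_one M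
    rw [e, ← div_eq_mul_inv, div_le_iff₀ (by linarith)]
    exact hMC
  -- the fields of small discriminant
  obtain ⟨T₂, hT₂, hUP⟩ := hUP (1 / 100000) (by norm_num)
  have hloc : ∀ d : ℤ, ∃ T₀ : ℝ, 0 < T₀ ∧ (d ∈ D → ∀ T : ℝ, T₀ ≤ T → ∃ x₀ : ℝ, 2 ≤ x₀ ∧
      ∀ x : ℝ, x₀ ≤ x → (Ui (K d) x).Finite ∧
      56006 / 100000 * (T / Real.pi * (Real.log x / 2)) * ((Ui (K d) x).ncard : ℝ) ≤
        ∑ᶠ χ ∈ Ui (K d) x, ns T χ) := by
    intro d
    by_cases hd : d ∈ D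
    · have := hIQ d hd
      obtain ⟨T₀, h1, h2⟩ := hKA (K d)
      exact ⟨T₀, h1, fun _ => h2⟩
    · exact ⟨1, one_pos, fun h => absurd h hd⟩
  choose T₀ hT₀ hloc using hloc
  refine ⟨T₁ + T₂ + ∑ d ∈ FD D Y, T₀ d, by
    have : 0 ≤ ∑ d ∈ FD D Y, T₀ d := Finset.sum_nonneg fun d _ => (hT₀ d).le
    linarith, fun T hT => ?_⟩
  have hT0s : 0 ≤ ∑ d ∈ FD D Y, T₀ d := Finset.sum_nonneg fun d _ => (hT₀ d).le
  have hTT₁ : T₁ ≤ T := by linarith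
  have hTT₂ : T₂ ≤ T := by linarith
  have hTT₀ : ∀ d ∈ FD D Y, T₀ d ≤ T := fun d hd => by
    have := Finset.single_le_sum (f := fun d : ℤ => T₀ d) (fun d _ => (hT₀ d).le) hd
    linarith
  have hT0 : 0 < T := by linarith
  obtain ⟨B, hB, hTL⟩ := hTL T hTT₁ D hD K hK
  have hloc2 : ∀ d : ℤ, ∃ x₀ : ℝ, 2 ≤ x₀ ∧ (d ∈ FD D Y → ∀ x : ℝ, x₀ ≤ x →
      56006 / 100000 * (T / Real.pi * (Real.log x / 2)) * ((Ui (K d) x).ncard : ℝ) ≤
        ∑ᶠ χ ∈ Ui (K d) x, ns T χ ∧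
      ∑ᶠ χ ∈ Ui (K d) x, nz T χ ≤
        (1 + 1 / 100000) * (T / Real.pi * (Real.log x / 2)) * ((Ui (K d) x).ncard : ℝ)) := by
    intro d
    by_cases hd : d ∈ FD D Y
    · have hdD : d ∈ D := ((mem_FD D Y d).1 hd).2
      have := hIQ d hdD
      obtain ⟨x₁, hx₁, h1⟩ := hloc d hdD T (hTT₀ d hd)
      obtain ⟨x₂, hx₂, h2⟩ := hUP T hTT₂ (K d)
      refine ⟨max x₁ x₂, hx₁.trans (le_max_left _ _), fun _ x hx => ?_⟩
      exact ⟨(h1 x ((le_max_left _ _).trans hx)).2, h2 x ((le_max_right _ _).trans hx)⟩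
    · exact ⟨2, le_rfl, fun h => absurd h hd⟩
  choose x0 hx0 hloc2 using hloc2
  refine ⟨3 + Y + t₀ * x3 + (∑ d ∈ FD D Y, |(d : ℝ)| * x0 d) +
    Real.exp (100000 * Real.log Y + 1) + 400000 * (Real.pi * B) / (T * c₀), fun X hX => ?_⟩
  have hsum0 : 0 ≤ ∑ d ∈ FD D Y, |(d : ℝ)| * x0 d :=
    Finset.sum_nonneg fun d _ => mul_nonneg (abs_nonneg _) (by linarith [hx0 d])
  have htx : 0 ≤ t₀ * x3 := by positivity
  have hexp := Real.exp_pos (100000 * Real.log Y + 1)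
  have hBX : 0 ≤ 400000 * (Real.pi * B) / (T * c₀) := by positivity
  have hX3 : 3 ≤ X := by linarith
  have hX1 : 1 ≤ X := by linarith
  have hX0 : 0 < X := by linarith
  have hXY : Y ≤ X := by linarith
  have hX3' : t₀ * x3 ≤ X := by linarith
  have hXe : Real.exp (100000 * Real.log Y + 1) ≤ X := by linarith
  have hXB : 400000 * (Real.pi * B) ≤ T * c₀ * X := by
    have h1 : 400000 * (Real.pi * B) / (T * c₀) ≤ X := by linarith
    rw [div_le_iff₀ (by positivity)] at h1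
    linarith
  have hXd : ∀ d ∈ FD D Y, |(d : ℝ)| * x0 d ≤ X := fun d hd => by
    have := Finset.single_le_sum (f := fun d : ℤ => |(d : ℝ)| * x0 d)
      (fun d _ => mul_nonneg (abs_nonneg _) (by linarith [hx0 d])) hd
    linarith
  obtain ⟨L, hL⟩ : ∃ L : ℝ, L = Real.log X := ⟨_, rfl⟩
  have hLY : 100000 * Real.log Y + 1 ≤ L := by
    rw [hL, Real.le_log_iff_exp_le hX0]; exact hXe
  have hlY0 : 0 ≤ Real.log Y := Real.log_nonneg hY1
  have hL1 : 1 ≤ L := by linarith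
  obtain ⟨hfinA, -⟩ := hTA' X Y hX1 hY1
  have hinD : ∀ (Z : ℝ) (d : ℤ), d ∈ FD D Z → d ∈ D := fun Z d hd => ((mem_FD D Z d).1 hd).2
  have hfund : ∀ (Z : ℝ) (d : ℤ), d ∈ FD D Z → IsFund d := fun Z d hd => hDf d (hinD Z d hd)
  have hiff : ∀ (Z : ℝ) (d : ℤ), 0 ≤ Z → d ∈ D → (d ∈ FD D Z ↔ |(d : ℝ)| ≤ Z) := by
    intro Z d hZ hd
    rw [← (hFD d (hDf d hd)).2 Z hZ, mem_FD, mem_Fd']
    exact ⟨fun h => ⟨h.1, hDf d hd⟩, fun h => ⟨h.1, hd⟩⟩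
  have hsub : ∀ d : ℤ, Ui (K d) (X / |(d : ℝ)|) ⊆ Al (K d) (X / |(d : ℝ)|) := fun d χ h => h.2
  have hfinU : ∀ d ∈ FD D X, (Ui (K d) (X / |(d : ℝ)|)).Finite := fun d hd =>
    (hfinA d hd).subset (hsub d)
  have habs : ∀ d : ℤ, IsFund d → 1 ≤ |(d : ℝ)| := fun d hd => by linarith [(hFD d hd).1]
  -- the characters
  have hchi : ∀ d ∈ FD D X, ∀ χ ∈ Ui (K d) (X / |(d : ℝ)|), IsEnt χ (Zx χ) ∧
      ∀ T : ℝ, {ρ : ℂ | ρ ∈ St T ∧ Zx χ ρ = 0}.Finite ∧ (SZ (Zx χ) 0 T).Finite ∧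
        0 ≤ ns T χ ∧ ns T χ ≤ nz T χ := by
    intro d hd χ hχ
    have := hIQ d (hinD X d hd)
    exact hFN (K d) χ (hEN (K d) χ (Or.inr hχ.1))
  obtain ⟨g, hg⟩ : ∃ g : ℤ → ℝ, g = fun d => ((Ui (K d) (X / |(d : ℝ)|)).ncard : ℝ) := ⟨_, rfl⟩
  obtain ⟨z, hz⟩ : ∃ z : ℤ → ℝ, z = fun d => ∑ᶠ χ ∈ Ui (K d) (X / |(d : ℝ)|), nz T χ :=
    ⟨_, rfl⟩
  obtain ⟨s, hs⟩ : ∃ s : ℤ → ℝ, s = fun d => ∑ᶠ χ ∈ Ui (K d) (X / |(d : ℝ)|), ns T χ :=
    ⟨_, rfl⟩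
  have hg0 : ∀ d, 0 ≤ g d := fun d => by rw [hg]; exact Nat.cast_nonneg _
  have hs0 : ∀ d ∈ FD D X, 0 ≤ s d := fun d hd => by
    rw [hs]
    simp only
    rw [finsum_mem_eq_finite_toFinset_sum _ (hfinU d hd)]
    refine Finset.sum_nonneg fun χ hχ => ?_
    exact ((hchi d hd χ ((Set.Finite.mem_toFinset _).1 hχ)).2 T).2.2.1
  have hsz : ∀ d ∈ FD D X, s d ≤ z d := fun d hd => by
    rw [hs, hz]
    simp only
    rw [finsum_mem_eq_finite_toFinset_sum _ (hfinU d hd),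
      finsum_mem_eq_finite_toFinset_sum _ (hfinU d hd)]
    refine Finset.sum_le_sum fun χ hχ => ?_
    exact ((hchi d hd χ ((Set.Finite.mem_toFinset _).1 hχ)).2 T).2.2.2
  -- splitting
  obtain ⟨F1, hF1⟩ : ∃ F1 : Finset ℤ, F1 = (FD D X).filter (fun d : ℤ => Y < |(d : ℝ)|) :=
    ⟨_, rfl⟩
  obtain ⟨F2, hF2⟩ : ∃ F2 : Finset ℤ, F2 = (FD D X).filter (fun d : ℤ => ¬ Y < |(d : ℝ)|) :=
    ⟨_, rfl⟩
  have hF2X : ∀ d ∈ F2, d ∈ FD D X := fun d hd => by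
    rw [hF2] at hd
    exact (Finset.mem_filter.1 hd).1
  have hF2Y : ∀ d ∈ F2, d ∈ FD D Y := fun d hd => by
    rw [hF2] at hd
    obtain ⟨hd1, hd2⟩ := Finset.mem_filter.1 hd
    exact (hiff Y d (by linarith) (hinD X d hd1)).2 (not_lt.1 hd2)
  have hsplit : ∑ d ∈ FD D X, z d = ∑ d ∈ F2, z d + ∑ d ∈ F1, z d := by
    rw [hF1, hF2, add_comm,
      Finset.sum_filter_add_sum_filter_not (FD D X) (fun d : ℤ => Y < |(d : ℝ)|)]
  obtain ⟨U, hU⟩ : ∃ U : ℝ, U = ∑ d ∈ F2, g d := ⟨_, rfl⟩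
  obtain ⟨w, hw⟩ : ∃ w : ℝ, w = T / Real.pi * (L / 2) * U := ⟨_, rfl⟩
  have hU0 : 0 ≤ U := by rw [hU]; exact Finset.sum_nonneg fun d _ => hg0 d
  have hw0 : 0 ≤ w := by rw [hw]; positivity
  -- the field `d₀`
  have hd₀F : d₀ ∈ F2 := by
    rw [hF2, Finset.mem_filter, ← ht₀, not_lt]
    exact ⟨(hiff X d₀ hX0.le hd₀).2 (by rw [← ht₀]; linarith), hYt⟩
  have hUlow : c₀ * X ^ 2 ≤ U := by
    have h8 : c * (X / t₀) ^ 2 ≤ g d₀ := by
      rw [hg]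
      simp only
      rw [← ht₀]
      exact hlow (X / t₀) (by
        rw [le_div_iff₀ ht0]
        linarith)
    calc c₀ * X ^ 2 = c * (X / t₀) ^ 2 := by rw [hc₀]; ring
      _ ≤ g d₀ := h8
      _ ≤ U := by rw [hU]; exact Finset.single_le_sum (fun d _ => hg0 d) hd₀F
  -- one field
  have hone : ∀ d ∈ F2, 56006 / 100000 * ((1 - 1 / 100000) * (T / Real.pi * (L / 2) * g d)) ≤ s d ∧
      z d ≤ (1 + 1 / 100000) * (T / Real.pi * (L / 2) * g d) := by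
    intro d hd
    have hdY := hF2Y d hd
    have hd1 := habs d (hfund Y d hdY)
    have hdYle : |(d : ℝ)| ≤ Y := (hiff Y d (by linarith) (hinD Y d hdY)).1 hdY
    have hd0 : 0 < |(d : ℝ)| := by linarith
    have hxd : x0 d ≤ X / |(d : ℝ)| := by
      rw [le_div_iff₀ hd0]
      linarith [hXd d hdY]
    obtain ⟨h1, h2⟩ := hloc2 d hdY _ hxd
    have hlog : Real.log (X / |(d : ℝ)|) = L - Real.log |(d : ℝ)| := by
      rw [Real.log_div hX0.ne' hd0.ne', hL]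
    have hl1 : Real.log |(d : ℝ)| ≤ Real.log Y := Real.log_le_log hd0 hdYle
    have hl2 : 0 ≤ Real.log |(d : ℝ)| := Real.log_nonneg hd1
    rw [hlog] at h1 h2
    have hTp : 0 ≤ T / Real.pi * g d := by
      have := hg0 d
      positivity
    constructor
    · rw [hs]
      simp only
      refine le_trans ?_ h1
      have h3 : (1 - 1 / 100000) * L ≤ L - Real.log |(d : ℝ)| := by linarith
      have h4 := mul_le_mul_of_nonneg_left h3 hTp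
      have e1 : 56006 / 100000 * (T / Real.pi * ((L - Real.log |(d : ℝ)|) / 2)) *
          ((Ui (K d) (X / |(d : ℝ)|)).ncard : ℝ) =
          28003 / 100000 * (T / Real.pi * g d * (L - Real.log |(d : ℝ)|)) := by
        rw [hg]; ring
      have e2 : 56006 / 100000 * ((1 - 1 / 100000) * (T / Real.pi * (L / 2) * g d)) =
          28003 / 100000 * (T / Real.pi * g d * ((1 - 1 / 100000) * L)) := by ring
      rw [e1, e2]
      linarith
    · rw [hz]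
      simp only
      refine h2.trans ?_
      have h3 : L - Real.log |(d : ℝ)| ≤ L := by linarith
      have h4 := mul_le_mul_of_nonneg_left h3 hTp
      have e1 : (1 + 1 / 100000) * (T / Real.pi * ((L - Real.log |(d : ℝ)|) / 2)) *
          ((Ui (K d) (X / |(d : ℝ)|)).ncard : ℝ) =
          (1 + 1 / 100000) / 2 * (T / Real.pi * g d * (L - Real.log |(d : ℝ)|)) := by
        rw [hg]; ring
      have e2 : (1 + 1 / 100000) * (T / Real.pi * (L / 2) * g d) =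
          (1 + 1 / 100000) / 2 * (T / Real.pi * g d * L) := by ring
      rw [e1, e2]
      linarith
  have hwsum : ∑ d ∈ F2, T / Real.pi * (L / 2) * g d = w := by
    rw [hw, hU, Finset.mul_sum]
  have hA : ∑ d ∈ F2, z d ≤ (1 + 1 / 100000) * w := by
    rw [← hwsum, Finset.mul_sum]
    exact Finset.sum_le_sum fun d hd => (hone d hd).2
  have hs1 : 56006 / 100000 * ((1 - 1 / 100000) * w) ≤ ∑ d ∈ F2, s d := by
    rw [← hwsum, Finset.mul_sum, Finset.mul_sum]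
    exact Finset.sum_le_sum fun d hd => (hone d hd).1
  have hs2 : ∑ d ∈ F2, s d ≤ ∑ d ∈ FD D X, s d :=
    Finset.sum_le_sum_of_subset_of_nonneg hF2X fun d hd _ => hs0 d hd
  have hBt : ∑ d ∈ F1, z d ≤ 1 / 100000 * w := by
    have h1 := hTL X Y (by linarith) hY1
    have h2 : ∑ d ∈ F1, z d ≤ C * T * Real.log X * X ^ 2 * Y ^ (-(1 / 4) : ℝ) + B := by
      rw [hF1, hz]
      convert h1
    rw [← hL] at h2
    exact h2.trans (alz_tail hT0 hL1 hX1 hc₀0 (by rw [← hη]; exact hYC) hXB hUlow hw)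
  have hwpos : 0 < w := by
    have hU1 : 0 < U := lt_of_lt_of_le (by positivity) hUlow
    rw [hw]
    positivity
  have hfinal := alz_num hw0 hA hBt (hs1.trans hs2)
  rw [← hsplit] at hfinal
  have e1 : ∑ d ∈ FD D X, ∑ᶠ χ ∈ Ui (K d) (X / |(d : ℝ)|), nz T χ = ∑ d ∈ FD D X, z d := by
    rw [hz]
  have e2 : ∑ d ∈ FD D X, ∑ᶠ χ ∈ Ui (K d) (X / |(d : ℝ)|), ns T χ = ∑ d ∈ FD D X, s d := by
    rw [hs]
  rw [e1, e2]
  refine ⟨fun d hd => ⟨hfinU d hd, fun χ hχ => ?_⟩, ?_, hfinal⟩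
  · obtain ⟨k1, k2⟩ := hchi d hd χ hχ
    exact ⟨k1, (k2 T).1, (k2 T).2.1⟩
  · have h1 : ∑ d ∈ FD D X, s d ≤ ∑ d ∈ FD D X, z d := Finset.sum_le_sum hsz
    have h2 : 0 < ∑ d ∈ FD D X, s d := by
      refine lt_of_lt_of_le ?_ (hs1.trans hs2)
      have : 0 < 56006 / 100000 * ((1 - 1 / 100000) * w) := by positivity
      exact this
    linarith

end Pool.Agent.H65.CZF
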