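import Pool.Agent.H65.CZF.FMF
import Pool.Agent.H65.CZF.ALZ
import Pool.Agent.H65.CRG.All
import Pool.Agent.H33.HH.All
import Pool.Agent.H33.HC.All
import Pool.Agent.H47.CZF.CMW
import Pool.Agent.H47.CZF.LWZ
import Pool.Agent.H81.CZF.CNF
import Pool.Agent.H81.CZF.FNZ
import Pool.Agent.H81.CZF.KAZ
import Pool.Agent.H81.CZF.LFU
import Pool.Agent.H81.CZF.SMQ
import Pool.Agent.H81.CZF.TLZ
import Pool.Agent.H95.CZF.MSF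
import Pool.Agent.H95.CZF.CW
import Pool.Agent.H95.CZF.LEA
import Pool.Agent.H95.CZF.LEB
import Pool.Agent.H95.CZF.LGF
import Pool.Agent.H95.CZF.ZUP
import Pool.Agent.H33.CZF.ENA
import Pool.Agent.H33.CZF.INM
import Pool.Agent.H16.CZF.EPB
import Pool.Agent.H16.CZF.FAM
import Pool.Agent.H67.CZF.H1U
import Pool.Agent.H25.CZF.UPK
import Pool.Agent.H38.CZF.FBF
import Pool.Agent.H38.CZF.H2P
import Pool.Agent.H1.CZF.H2U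

/-!
# Critical zeros of the complete family: the complete proof
-/

set_option autoImplicit false

open NumberField

namespace Pool.Agent.H65.CZF

open Pool.Agent.H65.CRG Pool.Agent.H65.CRG.Base Pool.Agent.H33.HH

theorem a_H2U : T_H2U := Pool.Agent.H1.CZF.pf_H2U a_NRM
theorem a_ENA : T_ENA := Pool.Agent.H33.CZF.pf_ENA a_NRM
theorem a_H1U : T_H1U := Pool.Agent.H67.CZF.pf_H1U a_H2U a_NRM c_G1 Pool.Agent.H28.RC.T_HEc_proved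
  Pool.Agent.H28.RC.c_GW Pool.Agent.H37.CV.a_GB
theorem a_LFU : T_LFU := Pool.Agent.H81.CZF.pf_LFU a_H1U a_H2U a_NRM
theorem a_FNZ : T_FNZ := Pool.Agent.H81.CZF.pf_FNZ a_H2U c_ZM a_NRM
theorem a_ZUP : T_ZUP := Pool.Agent.H95.CZF.pf_ZUP a_LFU d_RV
theorem a_H2P : T_H2P := Pool.Agent.H38.CZF.pf_H2P a_NRM Pool.Agent.H37.CV.a_CX
theorem a_EPB : T_EPB := Pool.Agent.H16.CZF.pf_EPB a_NRM
theorem a_LGF : T_LGF := Pool.Agent.H95.CZF.pf_LGF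
theorem a_FAM : T_FAM := Pool.Agent.H16.CZF.pf_FAM a_IEX a_NRM
theorem a_CMW : T_CMW := Pool.Agent.H47.CZF.pf_CMW c_CI
theorem a_MSF : T_MSF := Pool.Agent.H95.CZF.pf_MSF Pool.Agent.H33.HC.b_MSC a_EPB a_FAM
theorem a_DER : T_DER := Pool.Agent.H95.CZF.pf_DER a_MSF a_FAM a_ENA
theorem a_LEA : T_LEA := Pool.Agent.H95.CZF.pf_LEA a_DER a_EPB a_FAM a_LGF d_TR a_LFU a_ENA
theorem a_LEB : T_LEB := Pool.Agent.H95.CZF.pf_LEB a_MSF a_EPB a_FAM d_CK a_ENA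
theorem a_LE2 : T_LE2 := Pool.Agent.H95.CZF.pf_LE2 a_LEA a_LEB a_FAM
theorem a_LEF : T_LEF := Pool.Agent.H95.CZF.pf_LEF a_LE2 Pool.Agent.H33.HC.b_LEC a_FAM d_Q1
theorem a_FBF : T_FBF := Pool.Agent.H38.CZF.pf_FBF d_TR d_QI d_V0 a_H2U a_LFU a_ENA a_LGF a_H2P
  a_EPB
theorem a_INM : T_INM := Pool.Agent.H33.CZF.pf_INM a_MSF c_TL a_LFU a_FBF a_H2U a_H2P d_TR a_LGF
  a_EPB a_FAM a_ENA a_NRM a_IEX a_NPR a_PHM a_CNT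
theorem a_FMF : T_FMF := pf_FMF d_LV a_CMW a_LFU a_ENA a_FBF a_INM a_LEF a_LGF c_ZM d_Q1 d_V0
  a_EPB a_MZ a_FAM a_PHM
theorem a_CNF : T_CNF := Pool.Agent.H81.CZF.pf_CNF
theorem a_SMQ : T_SMQ := Pool.Agent.H81.CZF.pf_SMQ a_FMF a_CNF d_QL a_FNZ a_ENA a_FAM
theorem a_LWZ : T_LWZ := Pool.Agent.H47.CZF.pf_LWZ a_SMQ a_UPT a_WEX a_FAC a_PHM a_FAM a_FNZ a_ENA
theorem a_KAZ : T_KAZ := Pool.Agent.H81.CZF.pf_KAZ a_LWZ a_LB3 a_INV a_ZUP a_FNZ a_ENA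
theorem a_UPK : T_UPK := Pool.Agent.H25.CZF.pf_UPK a_ZUP a_FNZ a_ENA a_KA
theorem a_TLZ : T_TLZ := Pool.Agent.H81.CZF.pf_TLZ a_TAD a_ZUP a_FNZ a_ENA
theorem a_ALZ : T_ALZ := pf_ALZ a_KAZ a_UPK a_TLZ a_FNZ a_ENA a_TAD a_KA a_FDS

end Pool.Agent.H65.CZF
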