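import Pool.Agent.H33.HC.TC

/-!
# Critical zeros of the complete family (MP_347b49_nt), Levinson's side: definitions
-/

set_option autoImplicit false

open NumberField NumberField.InfinitePlace Complex Filter Topology MeasureTheory

namespace Pool.Agent.H65.CZF

open Pool.Agent.H28.RC Pool.Agent.H37.CV Pool.Agent.H33.HH Pool.Agent.H33.HC
open Pool.Agent.H65.CRZ (zc St SZ Zx cA Bm b0 cc)
open Pool.Agent.H65.CRG (LFg VQ cQ kn pm qm CZ)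

noncomputable section

variable {K : Type} [Field K] [NumberField K]

/-- the `L`-function of `χ` is entire and has a functional equation -/
def EnF (χ : RCC K) : Prop :=
  ∃ (Z Λ : ℂ → ℂ) (ε : ℂ), IsEnt χ Z ∧ Differentiable ℂ Λ ∧
    (∀ s : ℂ, (∀ n : ℕ, s ≠ -(n : ℂ)) →
      Λ s = ((cnd K χ.f : ℝ) : ℂ) ^ (s / 2) * Gammaℂ s ^ nrComplexPlaces K * Z s) ∧
    ‖ε‖ = 1 ∧ (∀ s : ℂ, Λ s = ε * (starRingEnd ℂ) (Λ (1 - (starRingEnd ℂ) s))) ∧
    ∀ b : ℝ, ∃ C : ℝ, ∀ s : ℂ, |s.re| ≤ b → ‖Λ s‖ ≤ C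

/-- the mollified auxiliary function -/
def fP (P θ R Q : ℝ) (N : ℕ) (m : ℕ → ℝ) (χ : RCC K) (s : ℂ) : ℂ :=
  VQ 1 N m (cA K χ.f) (Zx χ) s *
    (EP P χ.ψ s * mlz P (Q ^ θ) χ.ψ (s + ((R / Real.log Q : ℝ) : ℂ)))

/-- the averaged values on the left line -/
def av (P θ R Q : ℝ) (N : ℕ) (m : ℕ → ℝ) (χ : RCC K) (t : ℝ) : ℂ :=
  (1 / (2 * Real.pi : ℂ) * ∫ φ in (0 : ℝ)..(2 * Real.pi),
      ZP P χ (sgm R Q + t * I + R / 2 * cexp (φ * I) / Real.log Q) *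
        kn N m (R / 2 * cexp (φ * I))) * mlz P (Q ^ θ) χ.ψ (1 / 2 + t * I)

/-- the zeros of the `L`-function of `χ` in `0 < Im s < T`, with multiplicity -/
def nz (T : ℝ) (χ : RCC K) : ℝ := zc (Zx χ) (St T)

/-- the simple zeros on the critical line with `0 < Im s < T` -/
def ns (T : ℝ) (χ : RCC K) : ℝ := ((SZ (Zx χ) 0 T).ncard : ℝ)

end

end Pool.Agent.H65.CZF
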