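import Pool.Agent.H65.CZF.FMF2
import Pool.Agent.H87.HH.NVK

/-!
# Critical zeros of the complete family: the assembly for one smooth part of the conductor
-/

set_option autoImplicit false

open NumberField NumberField.InfinitePlace Complex Filter Topology MeasureTheory Set

namespace Pool.Agent.H65.CZF

open Pool.Agent.H28.RC Pool.Agent.H37.CV Pool.Agent.H33.HH Pool.Agent.H33.HC
open Pool.Agent.H65.CRZ (zc St SZ Zx cA Bm b0 cc UU UU_open UU_conn mem_UU choose_b bT Ph Ph_bound)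
open Pool.Agent.H65.CRG (LFg VQ cQ kn pm qm CZ num_car)

theorem FW_nonneg {K : Type} [Field K] [NumberField K] {P Q : ℝ} {W : ℝ → ℝ} (hW : IsW W)
    (k : Ideal (𝓞 K)) {F : RCC K → ℝ} (hF : ∀ χ, 0 ≤ F χ) : 0 ≤ FW P Q W k F := by
  unfold FW sumC
  refine tsum_nonneg fun q => ?_
  split_ifs
  · exact mul_nonneg (hW.bd _).1 (finsum_nonneg fun χ => finsum_nonneg fun _ => hF χ)
  · exact le_rfl

theorem pf_FMF (hLV : Pool.Agent.H65.CRG.T_LV) (hCM : T_CMW) (hLF : T_LFU) (hEN : T_ENA)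
    (hFB : T_FBF) (hIN : T_INM) (hLE : T_LEF) (hLG : T_LGF) (hZM : Pool.Agent.H65.CRZ.T_ZM)
    (hQ1 : Pool.Agent.H65.CRG.T_Q1) (hV0 : Pool.Agent.H65.CRG.T_V0) (hEP : T_EPB)
    (hMZ : T_MZ) (hFA : T_FAM) (hPH : T_PHM) : T_FMF := by
  intro K _ _ _ W N m R θ e hW hW1 hm0 hR hPar ε₀ hε₀
  have hpi := Real.pi_pos
  obtain ⟨x₀, hx₀⟩ : ∃ x₀ : ℝ, x₀ = cQ N m R θ := ⟨_, rfl⟩
  have hx₀1 : 1 ≤ x₀ := by
    rw [hx₀]
    exact hQ1 N m R _ hm0 hPar.θpos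
  obtain ⟨κ, hκ⟩ : ∃ κ : ℝ, κ = 1 - Real.log x₀ / R := ⟨_, rfl⟩
  have hκ1 : κ ≤ 1 := by
    have : 0 ≤ Real.log x₀ / R := div_nonneg (Real.log_nonneg hx₀1) hR.le
    linarith only [this, hκ]
  rw [← hx₀, ← hκ]
  obtain ⟨ε, hεdef⟩ : ∃ ε : ℝ, ε = min ε₀ (1 / 10) := ⟨_, rfl⟩
  have hε : 0 < ε := by rw [hεdef]; exact lt_min hε₀ (by norm_num)
  have hε1 : ε ≤ 1 / 10 := by rw [hεdef]; exact min_le_right _ _
  have hεε : ε ≤ ε₀ := by rw [hεdef]; exact min_le_left _ _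
  obtain ⟨δ, hδ⟩ : ∃ δ : ℝ, δ = ε * R / 8 := ⟨_, rfl⟩
  have hδ0 : 0 < δ := by rw [hδ]; positivity
  obtain ⟨ε₁, hε₁⟩ : ∃ ε₁ : ℝ, ε₁ = min (δ / (4 * (1 + δ))) (ε / 8) := ⟨_, rfl⟩
  have hε₁0 : 0 < ε₁ := by rw [hε₁]; exact lt_min (by positivity) (by positivity)
  have hε₁a : 2 * ε₁ * (1 + δ) ≤ δ / 2 := by
    have h1 : ε₁ ≤ δ / (4 * (1 + δ)) := by rw [hε₁]; exact min_le_left _ _
    rw [le_div_iff₀ (by positivity)] at h1
    linarith only [h1]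
  have hε₁b : ε₁ ≤ ε / 8 := by rw [hε₁]; exact min_le_right _ _
  have hε₁c : ε₁ ≤ 1 / 80 := by linarith only [hε₁b, hε1]
  obtain ⟨Q₁, hQ₁⟩ : ∃ Q₁ : ℝ, Q₁ = x₀ * (1 + δ) := ⟨_, rfl⟩
  have hQ₁1 : 1 ≤ Q₁ := by
    rw [hQ₁]
    exact fmf_a1 hx₀1 hδ0
  have hlQ : Real.log Q₁ / R ≤ 1 - κ + ε / 8 := by
    have h1 : Real.log Q₁ ≤ Real.log x₀ + δ := by
      have h3 : 0 < 1 + δ := by linarith only [hδ0]
      rw [hQ₁, Real.log_mul (by linarith only [hx₀1]) h3.ne']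
      have h4 := Real.log_le_sub_one_of_pos h3
      linarith only [h4]
    have h2 : (Real.log x₀ + δ) / R = 1 - κ + ε / 8 := by
      rw [hκ, hδ]; field_simp; ring
    rw [← h2]
    gcongr
  obtain ⟨P₀, hMZ⟩ := hMZ K W hW hW1 ε₁ hε₁0
  obtain ⟨p₀⟩ := Pool.Agent.H87.HH.exists_PrI K
  refine ⟨max P₀ (np p₀), fun P hP k hk => ?_⟩
  have hSP : (SP K P).Nonempty := ⟨p₀, Pool.Agent.H87.HH.mem_PM'.2 ((le_max_right _ _).trans hP)⟩
  obtain ⟨e1, e2, e3⟩ := Pool.Agent.H87.HH.IQ_pos K P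
  have e4 := ((hPH K).2.2 k hk.1).1
  have hnn : ∀ Q T : ℝ, 0 ≤ FW P Q W k
      (fun χ => ((CZ (Zx χ) (VQ 1 N m (cA K χ.f) (Zx χ)) 0 T).ncard : ℝ)) :=
    fun Q T => FW_nonneg hW k fun χ => Nat.cast_nonneg _
  rcases e4.eq_or_lt with e5 | e5
  · refine ⟨1, one_pos, fun T _ => ⟨2, le_rfl, fun Q _ => ?_⟩⟩
    refine le_trans ?_ (hnn Q T)
    unfold A0
    rw [← e5]
    simp
  obtain ⟨a, ha⟩ : ∃ a : ℝ, a = hc K / wu K * phs k * rk K P * W1 W := ⟨_, rfl⟩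
  have ha0 : 0 < a := by rw [ha]; positivity
  have hAa : ∀ Q, A0 P Q W k = a * Q ^ 2 := fun Q => by rw [ha]; rfl
  have hκk : 0 < nm k := by
    unfold nm
    have : Ideal.absNorm k ≠ 0 := by
      rw [Ne, Ideal.absNorm_eq_zero_iff]
      exact hk.1
    have := Nat.pos_of_ne_zero this
    exact_mod_cast this
  obtain ⟨Qm, hQm1, hMZ⟩ := hMZ P ((le_max_left _ _).trans hP) k hk (ε₁ * a) (by positivity)
  obtain ⟨κ₁, Qf, hκ₁, hQf1, hFA⟩ := hFA K P W k hW hk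
  obtain ⟨C₁, A₁, hC₁, hA₁, hLF⟩ := hLF
  obtain ⟨C₂, b₂, hC₂, hb₂, hFB⟩ := hFB K P N m θ R κ₁ (nm k) hm0 hR hPar.θpos hκ₁ hκk
  obtain ⟨C₃', b₃, hC₃', hb₃, hIN⟩ := hIN K P W k θ e R N m hSP hW hW1 hk hPar hR hm0
  obtain ⟨C₃, hC₃d⟩ : ∃ C₃ : ℝ, C₃ = max 1 (2 * C₃' / a) := ⟨_, rfl⟩
  have hC₃ : 1 ≤ C₃ := by rw [hC₃d]; exact le_max_left _ _
  have hC₃a : 2 * C₃' ≤ C₃ * a := by
    have h1 : 2 * C₃' / a ≤ C₃ := by rw [hC₃d]; exact le_max_right _ _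
    rwa [div_le_iff₀ ha0] at h1
  obtain ⟨b₁, hb₁, hb₁'⟩ := choose_b C₁
  obtain ⟨C₄, hC₄, hLV⟩ := hLV 1 N m C₁ b₁ hm0 hC₁ hb₁ hb₁'
  obtain ⟨C₆, hC₆, hLG⟩ := hLG K κ₁ (nm k) hκ₁ hκk
  obtain ⟨c₇, C₇, hc₇, hC₇, hEP⟩ := hEP K P
  obtain ⟨bs, hbs⟩ : ∃ bs : ℝ, bs = max (max b₂ b₃) (b₁ + 1) := ⟨_, rfl⟩
  have hbs2 : b₂ ≤ bs := by rw [hbs]; exact (le_max_left _ _).trans (le_max_left _ _)
  have hbs3 : b₃ ≤ bs := by rw [hbs]; exact (le_max_right _ _).trans (le_max_left _ _)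
  have hbs1 : b₁ + 1 ≤ bs := by rw [hbs]; exact le_max_right _ _
  have hbs4 : 4 ≤ bs := hb₂.trans hbs2
  obtain ⟨T₁, hT₁, hPh⟩ := Ph_bound bs C₂ (Real.log Q₁) (Real.log C₃)
    (ε * R / (8 * Real.pi)) (div_pos (by positivity) (by linarith only [hpi]))
  refine ⟨max T₁ (8 * Real.pi * C₄ / ε),
    lt_of_lt_of_le (by linarith only [hT₁] : (0 : ℝ) < T₁) (le_max_left _ _), fun T hT => ?_⟩
  have hTT₁ : T₁ ≤ T := (le_max_left _ _).trans hT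
  have hT1 : 1 ≤ T := hT₁.trans hTT₁
  have hT0 : 0 < T := by linarith only [hT1]
  have hTC₄ : 8 * Real.pi * C₄ ≤ ε * T := by
    have h := (le_max_right _ _).trans hT
    rw [div_le_iff₀ hε] at h
    linarith only [h]
  have hPhT := hPh T hTT₁
  have hbbs : bs ≤ bT bs T := by
    unfold bT
    have h1 : 0 ≤ Real.log T / Real.log 2 :=
      div_nonneg (Real.log_nonneg hT1) (Real.log_pos (by norm_num)).le
    linarith only [h1]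
  have hT'0 : 0 < T + Real.sqrt T + 1 := by positivity
  have hbC : C₁ * (2 : ℝ) ^ (-bT bs T) ≤ 1 / 100 := by
    refine le_trans ?_ hb₁'
    refine mul_le_mul_of_nonneg_left ?_ (by linarith only [hC₁])
    exact Real.rpow_le_rpow_of_exponent_le (by norm_num) (by linarith only [hbbs, hbs1])
  obtain ⟨A₀, hA₀, hLV⟩ := hLV T hT0
  obtain ⟨_, _, hV0⟩ := hV0 1 N m C₁ (bT bs T) hm0 hC₁ (by linarith only [hbbs, hbs4]) hbC
  obtain ⟨A₂, hA₂, hV0⟩ := hV0 (T + Real.sqrt T + 1) hT'0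
  obtain ⟨q₂, hq₂, hFB⟩ := hFB (bT bs T) (T + Real.sqrt T + 1) (hbs2.trans hbbs) hT'0
  obtain ⟨q₃, hq₃, hIN⟩ := hIN (bT bs T) (T + Real.sqrt T + 1) (hbs3.trans hbbs) hT'0
  obtain ⟨q₄, hq₄, hLE⟩ := hLE K P W k θ e R N m hSP hW hW1 hk hPar hR hm0 (δ / 4 * a)
    (T + Real.sqrt T + 1) (by positivity) hT'0
  -- the size of `log Q`
  obtain ⟨A₃, hA₃⟩ : ∃ A₃ : ℝ, A₃ = max A₁ (max A₀ A₂) := ⟨_, rfl⟩
  have hA₃1 : 1 ≤ A₃ := by rw [hA₃]; exact hA₁.trans (le_max_left _ _)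
  obtain ⟨Λ, hΛ⟩ : ∃ Λ : ℝ, Λ = max (5 * R + 1) (max (4 * C₆ / ε) (C₆ + 2 * Real.log A₃)) :=
    ⟨_, rfl⟩
  refine ⟨max (max (max Qm Qf) q₂) (max (max q₃ q₄) (Real.exp Λ)),
    hq₂.trans ((le_max_right _ _).trans (le_max_left _ _)), fun Q hQ => ?_⟩
  have g1 : Qm ≤ Q := (((le_max_left _ _).trans (le_max_left _ _)).trans (le_max_left _ _)).trans hQ
  have g2 : Qf ≤ Q := (((le_max_right _ _).trans (le_max_left _ _)).trans (le_max_left _ _)).trans hQ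
  have g3 : q₂ ≤ Q := ((le_max_right _ _).trans (le_max_left _ _)).trans hQ
  have g4 : q₃ ≤ Q := (((le_max_left _ _).trans (le_max_left _ _)).trans (le_max_right _ _)).trans hQ
  have g5 : q₄ ≤ Q := (((le_max_right _ _).trans (le_max_left _ _)).trans (le_max_right _ _)).trans hQ
  have g6 : Real.exp Λ ≤ Q := ((le_max_right _ _).trans (le_max_right _ _)).trans hQ
  have hQ2 : 2 ≤ Q := hq₂.trans g3
  have hQ0 : 0 < Q := by linarith only [hQ2]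
  have hlQQ : Λ ≤ Real.log Q := by rw [Real.le_log_iff_exp_le hQ0]; exact g6
  have hL1 : 5 * R + 1 ≤ Real.log Q := (by rw [hΛ]; exact le_max_left _ _ : _ ≤ Λ).trans hlQQ
  have hL2 : 4 * C₆ / ε ≤ Real.log Q :=
    (by rw [hΛ]; exact (le_max_left _ _).trans (le_max_right _ _) : _ ≤ Λ).trans hlQQ
  have hL3 : C₆ + 2 * Real.log A₃ ≤ Real.log Q :=
    (by rw [hΛ]; exact (le_max_right _ _).trans (le_max_right _ _) : _ ≤ Λ).trans hlQQ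
  have hL0 : 0 < Real.log Q := by linarith only [hL1, hR]
  obtain ⟨hmono, ι, hι, w, x, hinj, hx, hwM, hFW⟩ := hFA Q g2
  have hw : ∀ i, 0 ≤ w i := fun i => (hx i).1
  have hA00 : 0 < A0 P Q W k := by rw [hAa]; positivity
  have hnA : (1 - 2 * ε₁) * A0 P Q W k ≤ ∑ i, w i := by
    have h1 := (hMZ Q g1).1
    rw [hwM]
    refine le_trans (le_of_eq ?_) h1
    rw [hAa]
    ring
  have hn0 : 0 < ∑ i, w i :=
    lt_of_lt_of_le (mul_pos (by linarith only [hε₁c]) hA00) hnA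
  -- the single `L`-functions
  have hlogi : ∀ i, |2 * Real.log (cA K (x i).f) - Real.log Q| ≤ C₆ := fun i =>
    hLG Q (x i) hQ0 (hx i).2.2.2.1 (hx i).2.2.2.2.1
  have hcpos : ∀ i, 0 < cA K (x i).f := by
    intro i
    have h1 : 0 < nm (x i).f := lt_of_lt_of_le (by positivity) (hx i).2.2.2.1
    have h2 : 0 < |(discr K : ℝ)| := abs_pos.mpr (by exact_mod_cast discr_ne_zero K)
    unfold Pool.Agent.H65.CRZ.cA cnd
    positivity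
  have hAi : ∀ i, A₃ ≤ cA K (x i).f := by
    intro i
    have h1 := (abs_le.1 (hlogi i)).1
    rw [← Real.log_le_log_iff (by linarith only [hA₃1]) (hcpos i)]
    linarith only [h1, hL3]
  have hAi1 : ∀ i, A₁ ≤ cA K (x i).f := fun i =>
    (by rw [hA₃]; exact le_max_left _ _ : A₁ ≤ A₃).trans (hAi i)
  have hAi0 : ∀ i, A₀ ≤ cA K (x i).f := fun i =>
    (by rw [hA₃]; exact (le_max_left _ _).trans (le_max_right _ _) : A₀ ≤ A₃).trans (hAi i)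
  have hAi2 : ∀ i, A₂ ≤ cA K (x i).f := fun i =>
    (by rw [hA₃]; exact (le_max_right _ _).trans (le_max_right _ _) : A₂ ≤ A₃).trans (hAi i)
  have hLFi : ∀ i, LFg 1 C₁ (cA K (x i).f) (Zx (x i)) := fun i =>
    (hLF K (x i) (hEN K (x i) (Or.inl (hx i).2.2.1)) (hAi1 i)).2
  have hψ : ∀ i, ∀ I, ‖(x i).ψ I‖ ≤ 1 := fun i I => Pool.Agent.H28.RC.rcc_norm_le (x i) I
  have hINi : ∀ y t : ℝ, sgm R Q ≤ y → y ≤ bT bs T → |t| ≤ T + Real.sqrt T + 1 →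
      ∑ i, w i * ‖fP P θ R Q N m (x i) (y + t * I)‖ ^ 2 ≤ C₃ * ∑ i, w i := by
    intro y t h1 h2 h3
    have h4 := hIN Q g4 y t h1 h2 h3
    rw [hFW] at h4
    refine h4.trans ?_
    have h5 := fmf_a4 (Q := Q) hC₃a hε₁c hC₃'
    rw [← hAa] at h5
    exact h5.trans (mul_le_mul_of_nonneg_left hnA (by linarith only [hC₃]))
  have hLEi : ∀ t : ℝ, |t| ≤ T + Real.sqrt T + 1 →
      ∑ i, w i * ‖fP P θ R Q N m (x i) (sgm R Q + t * I)‖ ^ 2 ≤ Q₁ * ∑ i, w i := by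
    intro t h3
    have h4 := hLE Q g5 t h3
    rw [hFW] at h4
    refine h4.trans ?_
    rw [← hx₀]
    have h5 := fmf_a5 (Q := Q) hx₀1 ha0 hδ0 hε₁a
    rw [← hAa, ← hQ₁] at h5
    exact h5.trans (mul_le_mul_of_nonneg_left hnA (by linarith only [hQ₁1]))
  have hfinal := fmf_core hCM hZM hR hε hε1 hC₂ hbs4 (by linarith only [hbs1] : b₁ ≤ bs) hC₃ hT1
    hQ₁1 hTC₄ hPhT hlQ hL1 hL2 w x hw hn0 hlogi
    (fun i s h1 h2 h3 => hFB Q g3 (x i) (hx i).2.2.1 (hx i).2.2.2.1 (hx i).2.2.2.2.1 s h1 h2 h3)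
    hINi hLEi (fun i => (hLV (cA K (x i).f) (hAi0 i) (Zx (x i)) (hLFi i)).2)
    (fun i s h1 h2 h3 => (hV0 (cA K (x i).f) (hAi2 i) (Zx (x i)) (hLFi i) s h1 h2 h3).1)
    (fun i => (hEP (x i).ψ (hψ i)).1) (fun i => (hEP (x i).ψ (hψ i)).2.1 (Q ^ θ))
  rcases le_or_gt κ ε₀ with hle | hgt
  · have h1 : (κ - ε₀) * (T / Real.pi * (Real.log Q / 2)) * A0 P Q W k ≤ 0 := by
      have h2 : 0 ≤ T / Real.pi * (Real.log Q / 2) := by positivity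
      have h3 : (κ - ε₀) * (T / Real.pi * (Real.log Q / 2)) ≤ 0 :=
        mul_nonpos_of_nonpos_of_nonneg (by linarith only [hle]) h2
      exact mul_nonpos_of_nonpos_of_nonneg h3 hA00.le
    exact h1.trans (hnn Q T)
  · rw [hFW]
    refine le_trans ?_ hfinal
    have h2 : 0 ≤ T / Real.pi * (Real.log Q / 2) := by positivity
    have h3 : 0 ≤ κ - 5 * ε / 8 := by linarith only [hgt, hεε, hε]
    have h4 : (κ - 5 * ε / 8) * (T / Real.pi * (Real.log Q / 2)) * ((1 - 2 * ε₁) * A0 P Q W k) ≤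
        (κ - 5 * ε / 8) * (T / Real.pi * (Real.log Q / 2)) * ∑ i, w i :=
      mul_le_mul_of_nonneg_left hnA (mul_nonneg h3 h2)
    refine le_trans ?_ h4
    have h5 : (κ - 5 * ε / 8) * (T / Real.pi * (Real.log Q / 2)) * ((1 - 2 * ε₁) * A0 P Q W k) =
        (κ - 5 * ε / 8) * (1 - 2 * ε₁) * (T / Real.pi * (Real.log Q / 2)) * A0 P Q W k := by ring
    rw [h5]
    refine mul_le_mul_of_nonneg_right ?_ hA00.le
    refine mul_le_mul_of_nonneg_right ?_ h2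
    exact fmf_a2 hκ1 h3 hε hεε hε₁b hε₁0

end Pool.Agent.H65.CZF
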