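import Pool.Agent.H65.CZF.TB
import Pool.Agent.H65.CRG.FM1

/-!
# Critical zeros of the complete family: lemmas for the assembly for one smooth part
-/

set_option autoImplicit false

open NumberField NumberField.InfinitePlace Complex Filter Topology MeasureTheory Set

namespace Pool.Agent.H65.CZF

open Pool.Agent.H28.RC Pool.Agent.H37.CV Pool.Agent.H33.HH Pool.Agent.H33.HC
open Pool.Agent.H65.CRZ (zc St SZ Zx cA Bm b0 cc UU UU_open UU_conn mem_UU)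
open Pool.Agent.H65.CRG (LFg VQ cQ kn pm qm CZ)

/-- the bound of the zeros on the line -/
theorem num_fam {T lA lq ε κ R C₄ S n l : ℝ} (hT : 0 < T) (hε : 0 < ε) (hε1 : ε ≤ 1 / 10)
    (hlq : 0 ≤ lq) (hn : 0 < n)
    (h4 : 8 * Real.pi * C₄ ≤ ε * T) (hlog : (1 - ε / 4) * lq ≤ lA)
    (hl : l / R ≤ 1 - κ + ε / 8) (hR : 0 < R)
    (hS : S ≤ 2 * lq / (4 * R) * (T * (l / Real.pi + ε * R / (8 * Real.pi))) * n) :
    (κ - 5 * ε / 8) * (T / Real.pi * lq) * n ≤ n * ((T / Real.pi - C₄) * lA) - 2 * S := by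
  have hpi := Real.pi_pos
  obtain ⟨t, ht⟩ : ∃ t : ℝ, t = T / Real.pi := ⟨_, rfl⟩
  have ht0 : 0 < t := by rw [ht]; positivity
  have h5 : C₄ ≤ ε / 8 * t := by
    have : ε / 8 * t = ε * T / (8 * Real.pi) := by rw [ht]; ring
    rw [this, le_div_iff₀ (by positivity)]
    linarith
  have hS1 : 2 * lq / (4 * R) * (T * (l / Real.pi + ε * R / (8 * Real.pi))) * n =
      1 / 2 * (l / R + ε / 8) * (n * (t * lq)) := by
    rw [ht]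
    field_simp
    ring
  rw [hS1] at hS
  rw [← ht]
  obtain ⟨w, hw⟩ : ∃ w : ℝ, w = n * (t * lq) := ⟨_, rfl⟩
  have hw0 : 0 ≤ w := by rw [hw]; positivity
  rw [← hw] at hS
  have h6 : 2 * S ≤ (1 - κ + ε / 8 + ε / 8) * w := by
    have : 1 / 2 * (l / R + ε / 8) * w ≤ 1 / 2 * (1 - κ + ε / 8 + ε / 8) * w := by gcongr
    linarith
  have h7 : (1 - ε / 8) * t * ((1 - ε / 4) * lq) ≤ (t - C₄) * lA := by
    have h8 : (1 - ε / 8) * t ≤ t - C₄ := by linarith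
    have h9 : 0 ≤ (1 - ε / 8) * t := by
      have : 0 ≤ 1 - ε / 8 := by linarith
      positivity
    have h10 : 0 ≤ (1 - ε / 4) * lq := by
      have : 0 ≤ 1 - ε / 4 := by linarith
      positivity
    exact mul_le_mul h8 hlog h10 (by linarith)
  have h8 : n * ((1 - ε / 8) * t * ((1 - ε / 4) * lq)) ≤ n * ((t - C₄) * lA) :=
    mul_le_mul_of_nonneg_left h7 hn.le
  have h9 : n * ((1 - ε / 8) * t * ((1 - ε / 4) * lq)) = (1 - ε / 8) * (1 - ε / 4) * w := by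
    rw [hw]; ring
  have h10 : (1 - 3 * ε / 8) * w ≤ (1 - ε / 8) * (1 - ε / 4) * w := by
    refine mul_le_mul_of_nonneg_right ?_ hw0
    nlinarith [sq_nonneg ε]
  have h11 : (κ - 5 * ε / 8) * (t * lq) * n = (κ - 5 * ε / 8) * w := by rw [hw]; ring
  rw [h11]
  rw [h9] at h8
  linarith

/-- one character -/
theorem one_chiF {K : Type} [Field K] [NumberField K] (hZM : Pool.Agent.H65.CRZ.T_ZM) {N : ℕ}
    {m : ℕ → ℝ} {P θ R Q b b₁ T T' D : ℝ}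
    (hb : 1 < b) (hbb : b₁ ≤ b) (hD : 0 < D) (hT : 0 < T)
    (hT' : T' = T + D + 1) (χ : RCC K)
    (hV0 : ∀ s : ℂ, 1 / 8 < s.re → s.re < 2 * b → |s.im| < T' →
      DifferentiableAt ℂ (VQ 1 N m (cA K χ.f) (Zx χ)) s)
    (hEP : Differentiable ℂ (EP P χ.ψ)) (hmo : Differentiable ℂ fun z => mlz P (Q ^ θ) χ.ψ z)
    (hne : fP P θ R Q N m χ ((b : ℂ) + (0 : ℝ) * I) ≠ 0)
    (hfin : {ρ : ℂ | 1 / 2 ≤ ρ.re ∧ ρ.re < b ∧ ρ ∈ St T ∧ fP P θ R Q N m χ ρ = 0}.Finite) :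
    zc (VQ 1 N m (cA K χ.f) (Zx χ)) {ρ : ℂ | 1 / 2 ≤ ρ.re ∧ ρ.re < b₁ ∧ ρ ∈ St T} ≤
      zc (fP P θ R Q N m χ) {ρ : ℂ | 1 / 2 ≤ ρ.re ∧ ρ.re < b ∧ ρ ∈ St T} := by
  obtain ⟨g, hg⟩ : ∃ g : ℂ → ℂ, g = fun s =>
    EP P χ.ψ s * mlz P (Q ^ θ) χ.ψ (s + ((R / Real.log Q : ℝ) : ℂ)) := ⟨_, rfl⟩
  have hgd : Differentiable ℂ g := by
    rw [hg]
    refine hEP.mul ?_
    exact hmo.comp (differentiable_id.add_const _)
  have hU : ∀ s ∈ {ρ : ℂ | 1 / 2 ≤ ρ.re ∧ ρ.re < b ∧ ρ ∈ St T}, s ∈ UU b T' := by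
    rintro s ⟨h3, h4, h5, h6⟩
    exact mem_UU hb hD hT hT' (by linarith) h4.le (by linarith) (by linarith)
  have hVan : AnalyticOnNhd ℂ (VQ 1 N m (cA K χ.f) (Zx χ)) (UU b T') := by
    apply DifferentiableOn.analyticOnNhd _ (UU_open b T')
    intro s hs
    exact (hV0 s (by linarith [hs.1]) hs.2.1 hs.2.2).differentiableWithinAt
  have hMan : AnalyticOnNhd ℂ g (UU b T') := by
    apply DifferentiableOn.analyticOnNhd _ (UU_open b T')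
    intro s _
    exact (hgd s).differentiableWithinAt
  have hbU : ((b : ℂ) + (0 : ℝ) * I) ∈ UU b T' := by
    refine mem_UU hb hD hT hT' ?_ ?_ ?_ ?_
    · simp; linarith
    · simp
    · simp; linarith
    · simp; linarith
  have h4 : (fun s => VQ 1 N m (cA K χ.f) (Zx χ) s * g s) = fP P θ R Q N m χ := by
    funext s
    rw [hg]
    rfl
  have hne1 : VQ 1 N m (cA K χ.f) (Zx χ) ((b : ℂ) + (0 : ℝ) * I) ≠ 0 ∧
      g ((b : ℂ) + (0 : ℝ) * I) ≠ 0 := by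
    rw [← h4] at hne
    exact mul_ne_zero_iff.1 hne
  have h3 := (hZM.1 (VQ 1 N m (cA K χ.f) (Zx χ)) g
    {ρ : ℂ | 1 / 2 ≤ ρ.re ∧ ρ.re < b₁ ∧ ρ ∈ St T} {ρ : ℂ | 1 / 2 ≤ ρ.re ∧ ρ.re < b ∧ ρ ∈ St T}
    (by
      rintro s ⟨h4, h5, h6⟩
      exact ⟨h4, lt_of_lt_of_le h5 hbb, h6⟩)
    (by
      intro s hs
      exact ⟨hVan s (hU s hs), hMan s (hU s hs),
        Pool.Agent.H18.PZ.order_ne_top (UU_conn b T') hVan hbU hne1.1 (hU s hs),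
        Pool.Agent.H18.PZ.order_ne_top (UU_conn b T') hMan hbU hne1.2 (hU s hs)⟩)
    (by
      refine hfin.subset ?_
      rintro s ⟨⟨h5, h6, h7⟩, h8⟩
      refine ⟨h5, h6, h7, ?_⟩
      rw [← h4]
      exact h8)).2.1
  rw [h4] at h3
  exact h3

/-- the number of the zeros of the auxiliary functions -/
theorem car_appF {K : Type} [Field K] [NumberField K] (hCM : T_CMW) {N : ℕ}
    {m : ℕ → ℝ} {P θ R Q b T D T' C₂ C₃ Q₁ : ℝ} (hR : 0 < R)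
    (hb4 : 4 ≤ b) (hC₃ : 1 ≤ C₃) (hT : 0 < T) (hD : 0 < D) (hQ₁ : 1 ≤ Q₁)
    (hT' : T' = T + D + 1) (hL6 : 5 * R ≤ Real.log Q) (hL0 : 0 < Real.log Q) {ι : Type}
    [Fintype ι] (w : ι → ℝ) (x : ι → RCC K) (hw : ∀ i, 0 ≤ w i)
    (hFB : ∀ i, ∀ s : ℂ, 1 / 4 < s.re → s.re < 2 * b → |s.im| < T' →
        DifferentiableAt ℂ (fP P θ R Q N m (x i)) s ∧
        (4 ≤ s.re → ‖fP P θ R Q N m (x i) s‖ ≤ C₂) ∧
        (s.re = b → fP P θ R Q N m (x i) s ≠ 0 ∧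
          |Real.log ‖fP P θ R Q N m (x i) s‖| ≤ C₂ * (2 : ℝ) ^ (-b) ∧
          ‖deriv (fP P θ R Q N m (x i)) s‖ ≤
            C₂ * (2 : ℝ) ^ (-b) * ‖fP P θ R Q N m (x i) s‖))
    (hIN : ∀ y t : ℝ, sgm R Q ≤ y → y ≤ b → |t| ≤ T' →
      ∑ i, w i * ‖fP P θ R Q N m (x i) (y + t * I)‖ ^ 2 ≤ C₃ * ∑ i, w i)
    (hLE : ∀ t : ℝ, |t| ≤ T' → ∑ i, w i * ‖fP P θ R Q N m (x i) (sgm R Q + t * I)‖ ^ 2 ≤
        Q₁ * ∑ i, w i) :
    (∀ i, {ρ : ℂ | 1 / 2 ≤ ρ.re ∧ ρ.re < b ∧ ρ ∈ St T ∧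
      fP P θ R Q N m (x i) ρ = 0}.Finite) ∧
    4 * D * (1 / 2 - sgm R Q) * ∑ i, w i *
      zc (fP P θ R Q N m (x i)) {ρ : ℂ | 1 / 2 ≤ ρ.re ∧ ρ.re < b ∧ ρ ∈ St T} ≤
      (T + D) * (D / Real.pi * Real.log Q₁ +
      (b - sgm R Q) * Real.sinh (Real.pi * (b - sgm R Q) / D) * Real.log C₃ +
      (D + 2) * D * Real.cosh (Real.pi * (b - sgm R Q) / D) * (C₂ * (2 : ℝ) ^ (-b))) *
        ∑ i, w i := by
  obtain ⟨a, ha⟩ : ∃ a : ℝ, a = sgm R Q := ⟨_, rfl⟩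
  have ha' : a = 1 / 2 - R / Real.log Q := by rw [ha, sgm]
  have hRL : R / Real.log Q ≤ 1 / 5 := by
    rw [div_le_iff₀ hL0]; linarith
  have hRL0 : 0 < R / Real.log Q := div_pos hR hL0
  have ha1 : 1 / 4 < a := by rw [ha']; linarith
  have ha2 : a < 1 / 2 := by rw [ha']; linarith
  rw [← ha] at hIN hLE ⊢
  have hmem : ∀ s : ℂ, a ≤ s.re → s.re ≤ b → -D ≤ s.im → s.im ≤ T + D → s ∈ UU b T' :=
    fun s h1 h2 h3 h4 => mem_UU (by linarith) hD hT hT' (by linarith) h2 h3 h4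
  have hab : ∀ t ∈ Icc (-D) (T + D), |t| ≤ T' := by
    intro t ht
    rw [abs_le, hT']
    constructor <;> linarith [ht.1, ht.2]
  have c1 : ∀ i, ∀ s ∈ UU b T', DifferentiableAt ℂ (fP P θ R Q N m (x i)) s :=
    fun i s hs => (hFB i s hs.1 hs.2.1 hs.2.2).1
  have c2 : ∀ i, ∀ t ∈ Icc (-D) (T + D),
      fP P θ R Q N m (x i) (b + t * I) ≠ 0 ∧
      |Real.log ‖fP P θ R Q N m (x i) (b + t * I)‖| ≤ C₂ * (2 : ℝ) ^ (-b) ∧
      ‖deriv (fP P θ R Q N m (x i)) (b + t * I)‖ ≤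
        C₂ * (2 : ℝ) ^ (-b) * ‖fP P θ R Q N m (x i) (b + t * I)‖ := by
    intro i t ht
    have e1 : ((b : ℂ) + t * I).re = b := by simp
    have e2 : ((b : ℂ) + t * I).im = t := by simp
    have hs := hmem ((b : ℂ) + t * I) (by rw [e1]; linarith) (by rw [e1]) (by rw [e2]; exact ht.1)
      (by rw [e2]; exact ht.2)
    exact (hFB i _ hs.1 hs.2.1 hs.2.2).2.2 e1
  exact hCM ι w (fun i => fP P θ R Q N m (x i)) a (1 / 2)
    b T D (C₂ * (2 : ℝ) ^ (-b)) Q₁ C₃ (UU b T') hw ha2 (by linarith) hT hD hQ₁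
    hC₃ (UU_open b T') (UU_conn b T') c1 hmem c2 (fun t ht => hLE t (hab t ht))
    (fun t ht y hy => hIN y t hy.1 hy.2 (hab t ht))

end Pool.Agent.H65.CZF
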