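import Pool.Agent.H65.CZF.FMF1

/-!
# Critical zeros of the complete family: the inequality for one `Q`
-/

set_option autoImplicit false

open NumberField NumberField.InfinitePlace Complex Filter Topology MeasureTheory Set

namespace Pool.Agent.H65.CZF

open Pool.Agent.H28.RC Pool.Agent.H37.CV Pool.Agent.H33.HH Pool.Agent.H33.HC
open Pool.Agent.H65.CRZ (zc St SZ Zx cA Bm b0 cc UU UU_open UU_conn mem_UU choose_b bT Ph Ph_bound)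
open Pool.Agent.H65.CRG (LFg VQ cQ kn pm qm CZ num_car)

theorem fmf_a1 {x δ : ℝ} (h : 1 ≤ x) (hδ : 0 < δ) : 1 ≤ x * (1 + δ) := by nlinarith

theorem fmf_a2 {κ ε ε₀ ε₁ : ℝ} (hκ : κ ≤ 1) (hk : 0 ≤ κ - 5 * ε / 8) (hε : 0 < ε)
    (hεε : ε ≤ ε₀) (h1 : ε₁ ≤ ε / 8) (h0 : 0 < ε₁) :
    κ - ε₀ ≤ (κ - 5 * ε / 8) * (1 - 2 * ε₁) := by
  have h2 : (κ - 5 * ε / 8) * (2 * ε₁) ≤ 1 * (2 * ε₁) :=
    mul_le_mul_of_nonneg_right (by linarith) (by linarith)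
  have h3 : (κ - 5 * ε / 8) * (1 - 2 * ε₁) =
      (κ - 5 * ε / 8) - (κ - 5 * ε / 8) * (2 * ε₁) := by ring
  rw [h3]
  linarith

theorem fmf_a3 {ε L C : ℝ} (hε : 0 < ε) (h : 4 * C / ε ≤ L) :
    (1 - ε / 4) * (L / 2) ≤ (L - C) / 2 := by
  rw [div_le_iff₀ hε] at h
  have h3 : (1 - ε / 4) * (L / 2) = L / 2 - L * ε / 8 := by ring
  rw [h3]
  linarith

theorem fmf_a4 {C₃ C' a e Q : ℝ} (h : 2 * C' ≤ C₃ * a) (he : e ≤ 1 / 80) (hC : 1 ≤ C') :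
    C' * Q ^ 2 ≤ C₃ * ((1 - 2 * e) * (a * Q ^ 2)) := by
  have h6 : C₃ * ((1 - 2 * e) * (a * Q ^ 2)) = (1 - 2 * e) * (C₃ * a) * Q ^ 2 := by ring
  rw [h6]
  refine mul_le_mul_of_nonneg_right ?_ (by positivity)
  have h7 : (1 - 2 * e) * (2 * C') ≤ (1 - 2 * e) * (C₃ * a) :=
    mul_le_mul_of_nonneg_left h (by linarith)
  have h8 : 0 ≤ C' * (1 - 4 * e) := mul_nonneg (by linarith) (by linarith)
  have h9 : (1 - 2 * e) * (2 * C') = C' + C' * (1 - 4 * e) := by ring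
  linarith

theorem fmf_a5 {x δ a e Q : ℝ} (hx : 1 ≤ x) (ha : 0 < a) (hδ : 0 < δ)
    (he : 2 * e * (1 + δ) ≤ δ / 2) :
    x * (a * Q ^ 2) + δ / 4 * a * Q ^ 2 ≤ x * (1 + δ) * ((1 - 2 * e) * (a * Q ^ 2)) := by
  have h6 : x * (a * Q ^ 2) + δ / 4 * a * Q ^ 2 = (x + δ / 4) * (a * Q ^ 2) := by ring
  have h7 : x * (1 + δ) * ((1 - 2 * e) * (a * Q ^ 2)) =
      x * ((1 + δ) * (1 - 2 * e)) * (a * Q ^ 2) := by ring
  rw [h6, h7]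
  refine mul_le_mul_of_nonneg_right ?_ (by positivity)
  have h8 : 1 + δ / 2 ≤ (1 + δ) * (1 - 2 * e) := by linarith
  have h9 : x * (1 + δ / 2) ≤ x * ((1 + δ) * (1 - 2 * e)) :=
    mul_le_mul_of_nonneg_left h8 (by linarith)
  have h10 : δ / 2 ≤ x * (δ / 2) := by
    have := mul_le_mul_of_nonneg_right hx (by linarith : 0 ≤ δ / 2)
    linarith
  linarith

theorem fmf_a6 {C₄ ε T : ℝ} (hT : 0 < T) (hε : ε ≤ 1 / 10)
    (h : 8 * Real.pi * C₄ ≤ ε * T) : 0 ≤ T / Real.pi - C₄ := by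
  have hpi := Real.pi_pos
  have h1 : C₄ ≤ ε / 8 * (T / Real.pi) := by
    have : ε / 8 * (T / Real.pi) = ε * T / (8 * Real.pi) := by ring
    rw [this, le_div_iff₀ (by positivity)]
    linarith
  have h2 : 0 ≤ T / Real.pi := by positivity
  have h3 : 0 ≤ (1 - ε / 8) * (T / Real.pi) := mul_nonneg (by linarith) h2
  linarith

/-- the inequality for one `Q` -/
theorem fmf_core {K : Type} [Field K] [NumberField K] (hCM : T_CMW)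
    (hZM : Pool.Agent.H65.CRZ.T_ZM) {N : ℕ}
    {m : ℕ → ℝ} {P θ R Q bs b₁ T C₂ C₃ C₄ C₆ Q₁ ε κ : ℝ} (hR : 0 < R) (hε : 0 < ε)
    (hε1 : ε ≤ 1 / 10) (hC₂ : 1 ≤ C₂) (hbs4 : 4 ≤ bs) (hbs1 : b₁ ≤ bs)
    (hC₃ : 1 ≤ C₃) (hT1 : 1 ≤ T) (hQ₁1 : 1 ≤ Q₁)
    (hTC₄ : 8 * Real.pi * C₄ ≤ ε * T)
    (hPhT : (T + Real.sqrt T) * Ph bs C₂ (Real.log Q₁) (Real.log C₃) T ≤
      T * (Real.log Q₁ / Real.pi + ε * R / (8 * Real.pi)))
    (hlQ : Real.log Q₁ / R ≤ 1 - κ + ε / 8)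
    (hL1 : 5 * R + 1 ≤ Real.log Q) (hL2 : 4 * C₆ / ε ≤ Real.log Q) {ι : Type}
    [Fintype ι] (w : ι → ℝ) (x : ι → RCC K) (hw : ∀ i, 0 ≤ w i) (hn0 : 0 < ∑ i, w i)
    (hlogi : ∀ i, |2 * Real.log (cA K (x i).f) - Real.log Q| ≤ C₆)
    (hFB : ∀ i, ∀ s : ℂ, 1 / 4 < s.re → s.re < 2 * bT bs T → |s.im| < T + Real.sqrt T + 1 →
        DifferentiableAt ℂ (fP P θ R Q N m (x i)) s ∧
        (4 ≤ s.re → ‖fP P θ R Q N m (x i) s‖ ≤ C₂) ∧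
        (s.re = bT bs T → fP P θ R Q N m (x i) s ≠ 0 ∧
          |Real.log ‖fP P θ R Q N m (x i) s‖| ≤ C₂ * (2 : ℝ) ^ (-bT bs T) ∧
          ‖deriv (fP P θ R Q N m (x i)) s‖ ≤
            C₂ * (2 : ℝ) ^ (-bT bs T) * ‖fP P θ R Q N m (x i) s‖))
    (hIN : ∀ y t : ℝ, sgm R Q ≤ y → y ≤ bT bs T → |t| ≤ T + Real.sqrt T + 1 →
      ∑ i, w i * ‖fP P θ R Q N m (x i) (y + t * I)‖ ^ 2 ≤ C₃ * ∑ i, w i)
    (hLE : ∀ t : ℝ, |t| ≤ T + Real.sqrt T + 1 →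
      ∑ i, w i * ‖fP P θ R Q N m (x i) (sgm R Q + t * I)‖ ^ 2 ≤ Q₁ * ∑ i, w i)
    (hLV : ∀ i, T / Real.pi * Real.log (cA K (x i).f) - C₄ * Real.log (cA K (x i).f) -
      2 * zc (VQ 1 N m (cA K (x i).f) (Zx (x i)))
        {ρ : ℂ | 1 / 2 ≤ ρ.re ∧ ρ.re < b₁ ∧ ρ ∈ St T} ≤
      (CZ (Zx (x i)) (VQ 1 N m (cA K (x i).f) (Zx (x i))) 0 T).ncard)
    (hV0 : ∀ i, ∀ s : ℂ, 1 / 8 < s.re → s.re < 2 * bT bs T → |s.im| < T + Real.sqrt T + 1 →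
      DifferentiableAt ℂ (VQ 1 N m (cA K (x i).f) (Zx (x i))) s)
    (hEP : ∀ i, Differentiable ℂ (EP P (x i).ψ))
    (hmo : ∀ i, Differentiable ℂ fun z => mlz P (Q ^ θ) (x i).ψ z) :
    (κ - 5 * ε / 8) * (T / Real.pi * (Real.log Q / 2)) * ∑ i, w i ≤
      ∑ i, w i * ((CZ (Zx (x i)) (VQ 1 N m (cA K (x i).f) (Zx (x i))) 0 T).ncard : ℝ) := by
  have hT0 : 0 < T := by linarith only [hT1]
  have hpi := Real.pi_pos
  obtain ⟨n, hn⟩ : ∃ n : ℝ, n = ∑ i, w i := ⟨_, rfl⟩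
  obtain ⟨D, hD⟩ : ∃ D : ℝ, D = Real.sqrt T := ⟨_, rfl⟩
  have hD1 : 1 ≤ D := by rw [hD]; exact Real.one_le_sqrt.2 hT1
  have hD0 : 0 < D := by linarith only [hD1]
  obtain ⟨b, hb⟩ : ∃ b : ℝ, b = bT bs T := ⟨_, rfl⟩
  have hbbs : bs ≤ b := by
    rw [hb]
    unfold bT
    have h1 : 0 ≤ Real.log T / Real.log 2 :=
      div_nonneg (Real.log_nonneg hT1) (Real.log_pos (by norm_num)).le
    linarith only [h1]
  obtain ⟨T', hT'⟩ : ∃ T' : ℝ, T' = T + D + 1 := ⟨_, rfl⟩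
  have hT'0 : 0 < T' := by rw [hT']; linarith only [hT0, hD0]
  have hL0 : 0 < Real.log Q := by linarith only [hL1, hR]
  have hL6 : 5 * R ≤ Real.log Q := by linarith only [hL1]
  have hb4 : 4 ≤ b := by linarith only [hbbs, hbs4]
  rw [← hb, ← hD, ← hT'] at hFB hV0 hIN
  rw [← hD, ← hT'] at hLE
  obtain ⟨hfin, hineq⟩ := car_appF hCM hR hb4 hC₃ hT0 hD0 hQ₁1 hT' hL6 hL0
    w x hw hFB hIN hLE
  rw [← hn] at hineq hn0 ⊢
  obtain ⟨S, hS⟩ : ∃ S : ℝ, S = ∑ i, w i * zc (fP P θ R Q N m (x i))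
    {ρ : ℂ | 1 / 2 ≤ ρ.re ∧ ρ.re < b ∧ ρ ∈ St T} := ⟨_, rfl⟩
  rw [← hS] at hineq
  obtain ⟨P', hP'⟩ : ∃ P' : ℝ, P' = Ph bs C₂ (Real.log Q₁) (Real.log C₃) T := ⟨_, rfl⟩
  have hP'' : P' = Real.log Q₁ / Real.pi + b / D * Real.sinh (Real.pi * (b / D)) *
      Real.log C₃ + (D + 2) * Real.cosh (Real.pi * (b / D)) * (C₂ * (2 : ℝ) ^ (-b)) := by
    rw [hP', Ph, ← hb, ← hD]
  rw [← hP', ← hD] at hPhT
  have hsg : 1 / 2 - sgm R Q = R / Real.log Q := by rw [sgm]; ring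
  have hRL : R / Real.log Q ≤ 1 / 5 := by
    rw [div_le_iff₀ hL0]; linarith only [hL6]
  have hRL0 : 0 < R / Real.log Q := div_pos hR hL0
  have hSle := num_car hD0 (by linarith only [hsg, hRL] : 0 ≤ sgm R Q)
    (by linarith only [hsg, hRL0, hb4] : sgm R Q ≤ b)
    (by linarith only [hC₂] : 0 ≤ C₂) hC₃ hT0 hn0 hL0 hR hsg hP'' hineq
  have hSle2 : S ≤ 2 * (Real.log Q / 2) / (4 * R) *
      (T * (Real.log Q₁ / Real.pi + ε * R / (8 * Real.pi))) * n := by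
    refine hSle.trans ?_
    have h1 : 2 * (Real.log Q / 2) = Real.log Q := by ring
    rw [h1]
    refine mul_le_mul_of_nonneg_right ?_ hn0.le
    exact mul_le_mul_of_nonneg_left hPhT (div_nonneg hL0.le (by positivity))
  have hTC₄' : 0 ≤ T / Real.pi - C₄ := fmf_a6 hT0 hε1 hTC₄
  obtain ⟨lA, hlA⟩ : ∃ lA : ℝ, lA = (Real.log Q - C₆) / 2 := ⟨_, rfl⟩
  have hone : ∀ i, (T / Real.pi - C₄) * lA -
        2 * zc (fP P θ R Q N m (x i))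
          {ρ : ℂ | 1 / 2 ≤ ρ.re ∧ ρ.re < b ∧ ρ ∈ St T} ≤
        ((CZ (Zx (x i)) (VQ 1 N m (cA K (x i).f) (Zx (x i))) 0 T).ncard : ℝ) := by
    intro i
    refine le_trans ?_ (hLV i)
    have e1 : ((b : ℂ) + (0 : ℝ) * I).re = b := by simp
    have e2 : ((b : ℂ) + (0 : ℝ) * I).im = 0 := by simp
    have h3 := one_chiF hZM (by linarith only [hb4] : 1 < b)
      (by linarith only [hbs1, hbbs] : b₁ ≤ b) hD0 hT0 hT' (x i)
      (hV0 i) (hEP i) (hmo i)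
      ((hFB i ((b : ℂ) + (0 : ℝ) * I) (by rw [e1]; linarith only [hb4])
        (by rw [e1]; linarith only [hb4])
        (by rw [e2, abs_zero]; exact hT'0)).2.2 e1).1 (hfin i)
    have h4 : lA ≤ Real.log (cA K (x i).f) := by
      have := (abs_le.1 (hlogi i)).1
      rw [hlA]
      linarith only [this]
    have h5 : (T / Real.pi - C₄) * lA ≤ (T / Real.pi - C₄) * Real.log (cA K (x i).f) :=
      mul_le_mul_of_nonneg_left h4 hTC₄'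
    have h6 : (T / Real.pi - C₄) * Real.log (cA K (x i).f) =
      T / Real.pi * Real.log (cA K (x i).f) - C₄ * Real.log (cA K (x i).f) := by ring
    linarith only [h3, h5, h6]
  have hsum : n * ((T / Real.pi - C₄) * lA) - 2 * S ≤
      ∑ i, w i * ((CZ (Zx (x i)) (VQ 1 N m (cA K (x i).f) (Zx (x i))) 0 T).ncard : ℝ) := by
    have h1 := Finset.sum_le_sum fun (i : ι) (_ : i ∈ Finset.univ) =>
      mul_le_mul_of_nonneg_left (hone i) (hw i)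
    refine le_trans (le_of_eq ?_) h1
    rw [hS, hn, Finset.sum_mul, Finset.mul_sum, ← Finset.sum_sub_distrib]
    refine Finset.sum_congr rfl fun i _ => ?_
    ring
  refine le_trans ?_ hsum
  have hlog : (1 - ε / 4) * (Real.log Q / 2) ≤ lA := by
    rw [hlA]
    exact fmf_a3 hε hL2
  exact num_fam hT0 hε hε1 (by positivity) hn0 hTC₄ hlog hlQ hR hSle2

end Pool.Agent.H65.CZF
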