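import Pool.Agent.H65.CZF.Defs

/-!
# Critical zeros of the complete family: targets, part A (uniform bounds of the L-functions,
values as finite sums, mean squares)
-/

set_option autoImplicit false

open NumberField NumberField.InfinitePlace Complex Filter Topology MeasureTheory Set

namespace Pool.Agent.H65.CZF

open Pool.Agent.H28.RC Pool.Agent.H37.CV Pool.Agent.H33.HH Pool.Agent.H33.HC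
open Pool.Agent.H65.CRZ (zc St SZ Zx cA Bm b0 cc)
open Pool.Agent.H65.CRG (LFg VQ cQ kn pm qm CZ)

noncomputable section

/-! ### Carleman's formula with weights -/

/-- CMW: upper bound of the zeros of a weighted family from the mean squares. -/
def T_CMW : Prop :=
  ∀ (ι : Type) [Fintype ι] (w : ι → ℝ) (f : ι → ℂ → ℂ) (a β b T D e Q₁ Q₂ : ℝ) (U : Set ℂ),
    (∀ i, 0 ≤ w i) → a < β → β < b → 0 < T → 0 < D → 1 ≤ Q₁ → 1 ≤ Q₂ → IsOpen U →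
    IsPreconnected U → (∀ i, ∀ s ∈ U, DifferentiableAt ℂ (f i) s) →
    (∀ s : ℂ, a ≤ s.re → s.re ≤ b → -D ≤ s.im → s.im ≤ T + D → s ∈ U) →
    (∀ i, ∀ t ∈ Icc (-D) (T + D), f i (b + t * I) ≠ 0 ∧ |Real.log ‖f i (b + t * I)‖| ≤ e ∧
      ‖deriv (f i) (b + t * I)‖ ≤ e * ‖f i (b + t * I)‖) →
    (∀ t ∈ Icc (-D) (T + D), ∑ i, w i * ‖f i (a + t * I)‖ ^ 2 ≤ Q₁ * ∑ i, w i) →
    (∀ t ∈ Icc (-D) (T + D), ∀ x ∈ Icc a b,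
      ∑ i, w i * ‖f i (x + t * I)‖ ^ 2 ≤ Q₂ * ∑ i, w i) →
    (∀ i, {ρ : ℂ | β ≤ ρ.re ∧ ρ.re < b ∧ ρ ∈ St T ∧ f i ρ = 0}.Finite) ∧
    4 * D * (β - a) * ∑ i, w i * zc (f i) {ρ : ℂ | β ≤ ρ.re ∧ ρ.re < b ∧ ρ ∈ St T} ≤
      (T + D) * (D / Real.pi * Real.log Q₁ +
        (b - a) * Real.sinh (Real.pi * (b - a) / D) * Real.log Q₂ +
        (D + 2) * D * Real.cosh (Real.pi * (b - a) / D) * e) * ∑ i, w i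

/-! ### The `L`-functions, uniformly in the field -/

/-- ENA: continuation and functional equation (`χ.f ≠ ⊤`: `T_EN`; the new case is `χ.f = ⊤`). -/
def T_ENA : Prop := ∀ (K : Type) [Field K] [NumberField K] [IQ K] (χ : RCC K),
  (χ.f ≠ ⊤ ∨ NotInv χ) → EnF χ

/-- H2U: the `L`-functions to the right of `1`, uniformly in the field. -/
def T_H2U : Prop := ∃ C : ℝ, 1 ≤ C ∧ ∀ (K : Type) [Field K] [NumberField K] [IQ K] (χ : RCC K)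
  (s : ℂ), 3 / 2 ≤ s.re → ‖Lc χ s‖ ≤ C ∧ ‖Lc χ s - 1‖ ≤ C * (2 : ℝ) ^ (-s.re)

/-- H1U: growth of the `L`-functions, uniformly in the field. -/
def T_H1U : Prop := ∃ C : ℝ, 1 ≤ C ∧ ∀ (K : Type) [Field K] [NumberField K] [IQ K] (χ : RCC K),
  EnF χ → 1 ≤ cA K χ.f → ∀ Z : ℂ → ℂ, IsEnt χ Z → ∀ s : ℂ, -1 ≤ s.re →
  ‖Z s‖ ≤ (cA K χ.f * (2 + |s.im|)) ^ C

/-- LFU: functional equations of degree two with uniform constants. -/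
def T_LFU : Prop := ∃ C A₁ : ℝ, 1 ≤ C ∧ 1 ≤ A₁ ∧ ∀ (K : Type) [Field K] [NumberField K] [IQ K]
  (χ : RCC K), EnF χ → A₁ ≤ cA K χ.f → IsEnt χ (Zx χ) ∧ LFg 1 C (cA K χ.f) (Zx χ)

/-- FNZ: the zeros are finite in number. -/
def T_FNZ : Prop := ∀ (K : Type) [Field K] [NumberField K] [IQ K] (χ : RCC K), EnF χ →
  IsEnt χ (Zx χ) ∧ ∀ T : ℝ, {ρ : ℂ | ρ ∈ St T ∧ Zx χ ρ = 0}.Finite ∧ (SZ (Zx χ) 0 T).Finite ∧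
    0 ≤ ns T χ ∧ ns T χ ≤ nz T χ

/-- ZUP: the upper bound for the number of the zeros, uniformly in the field. -/
def T_ZUP : Prop := ∀ ε : ℝ, 0 < ε → ∃ T₀ : ℝ, 0 < T₀ ∧ ∀ T : ℝ, T₀ ≤ T → ∃ A₀ : ℝ, 1 ≤ A₀ ∧
  ∀ (K : Type) [Field K] [NumberField K] [IQ K] (χ : RCC K), EnF χ → A₀ ≤ cA K χ.f →
  nz T χ ≤ (1 + ε) * (T / Real.pi * Real.log (cA K χ.f))

/-! ### The mollifier, the Euler factors, the family -/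

/-- H2P: the mollifier and the Euler factors to the right of `1`. -/
def T_H2P : Prop := ∀ (K : Type) [Field K] [NumberField K] [IQ K] (P : ℝ), ∃ C : ℝ, 1 ≤ C ∧
  ∀ ψ : Ideal (𝓞 K) → ℂ, (∀ I, ‖ψ I‖ ≤ 1) → ψ ⊤ = 1 → ∀ s : ℂ, 3 / 2 ≤ s.re →
  ‖EP P ψ s - 1‖ ≤ C * (2 : ℝ) ^ (-s.re) ∧
  ∀ y : ℝ, 1 ≤ y → ‖mlz P y ψ s - 1‖ ≤ C * (2 : ℝ) ^ (-s.re)

/-- EPB: the Euler factors at the small primes. -/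
def T_EPB : Prop := ∀ (K : Type) [Field K] [NumberField K] [IQ K] (P : ℝ), ∃ c C : ℝ, 0 < c ∧
  0 < C ∧ ∀ ψ : Ideal (𝓞 K) → ℂ, (∀ I, ‖ψ I‖ ≤ 1) → Differentiable ℂ (EP P ψ) ∧
  (∀ y : ℝ, Differentiable ℂ fun z => mlz P y ψ z) ∧
  ∀ s s' : ℂ, 1 / 4 ≤ s.re → 1 / 4 ≤ s'.re → c ≤ ‖EP P ψ s‖ ∧ ‖EP P ψ s‖ ≤ C ∧
    ‖EP P ψ s - EP P ψ s'‖ ≤ C * ‖s - s'‖

/-- LGF: the conductor parameter on the logarithmic scale. -/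
def T_LGF : Prop := ∀ (K : Type) [Field K] [NumberField K] [IQ K] (κ₁ κ₂ : ℝ), 0 < κ₁ →
  0 < κ₂ → ∃ C : ℝ, 0 ≤ C ∧ ∀ (Q : ℝ) (χ : RCC K), 0 < Q → κ₁ * Q ≤ nm χ.f → nm χ.f ≤ κ₂ * Q →
  |2 * Real.log (cA K χ.f) - Real.log Q| ≤ C

/-- FAM: the family as a finite set with weights. -/
def T_FAM : Prop := ∀ (K : Type) [Field K] [NumberField K] [IQ K] (P : ℝ) (W : ℝ → ℝ)
  (k : Ideal (𝓞 K)), IsW W → Sm' P k → ∃ κ₁ Q₁ : ℝ, 0 < κ₁ ∧ 1 ≤ Q₁ ∧ ∀ Q : ℝ, Q₁ ≤ Q →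
  (∀ F F' : RCC K → ℝ, (∀ χ : RCC K, χ.f ≠ ⊤ → κ₁ * Q ≤ nm χ.f → nm χ.f ≤ nm k * Q →
    F χ ≤ F' χ) → FW P Q W k F ≤ FW P Q W k F') ∧
  ∃ (ι : Type) (_ : Fintype ι) (w : ι → ℝ) (x : ι → RCC K), Function.Injective x ∧
    (∀ i, 0 ≤ w i ∧ w i ≤ 1 ∧ (x i).f ≠ ⊤ ∧ κ₁ * Q ≤ nm (x i).f ∧ nm (x i).f ≤ nm k * Q ∧
      ∃ q : Ideal (𝓞 K), q ≠ ⊥ ∧ Cp P q ∧ (x i).f = k * q) ∧
    ∑ i, w i = M0 P Q W k ∧ ∀ F : RCC K → ℝ, FW P Q W k F = ∑ i, w i * F (x i)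

/-! ### Mean squares -/

/-- MSF: mean squares on the left line, with a shift. -/
def T_MSF : Prop := ∀ (K : Type) [Field K] [NumberField K] [IQ K] (P : ℝ) (W : ℝ → ℝ)
  (k : Ideal (𝓞 K)) (θ e R : ℝ), (SP K P).Nonempty → IsW W → 0 < W1 W → Sm' P k → Par θ e →
  0 < R → ∃ C B : ℝ, 0 < C ∧ 0 ≤ B ∧ ∀ η : ℝ, 0 < η → ∃ Q₀ : ℝ, 2 ≤ Q₀ ∧ ∀ Q : ℝ, Q₀ ≤ Q →
  ∀ (a : ℂ) (u : ℝ), ‖a‖ ≤ R / (2 * Real.log Q) →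
  FW P Q W k (fun χ => ‖Zx χ (sgm R Q + u * I + a) * mlz P (Q ^ θ) χ.ψ (1 / 2 + u * I)‖ ^ 2) ≤
    (C + η * (1 + |u|) ^ B) * Q ^ 2

/-- DER: mean squares of the derivatives on the left line. -/
def T_DER : Prop := ∀ (K : Type) [Field K] [NumberField K] [IQ K] (P : ℝ) (W : ℝ → ℝ)
  (k : Ideal (𝓞 K)) (θ e R : ℝ), (SP K P).Nonempty → IsW W → 0 < W1 W → Sm' P k → Par θ e →
  0 < R → ∀ i : ℕ, ∃ C : ℝ, 0 < C ∧ ∀ T : ℝ, 0 < T → ∃ Q₀ : ℝ, 2 ≤ Q₀ ∧ ∀ Q : ℝ, Q₀ ≤ Q →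
  ∀ t : ℝ, |t| ≤ T →
  FW P Q W k (fun χ => ‖iteratedDeriv i (Zx χ) (sgm R Q + t * I) *
      mlz P (Q ^ θ) χ.ψ (1 / 2 + t * I)‖ ^ 2) ≤ C * Real.log Q ^ (2 * i) * Q ^ 2

/-- LEA: the auxiliary function and the polynomial in the derivatives. -/
def T_LEA : Prop := ∀ (K : Type) [Field K] [NumberField K] [IQ K] (P : ℝ) (W : ℝ → ℝ)
  (k : Ideal (𝓞 K)) (θ e R : ℝ) (N : ℕ) (m : ℕ → ℝ), (SP K P).Nonempty → IsW W → 0 < W1 W →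
  Sm' P k → Par θ e → 0 < R → 0 < 1 + pm N m (1 / 2) → ∀ δ T : ℝ, 0 < δ → 0 < T →
  ∃ Q₀ : ℝ, 2 ≤ Q₀ ∧ ∀ Q : ℝ, Q₀ ≤ Q → ∀ t : ℝ, |t| ≤ T →
  FW P Q W k (fun χ => ‖fP P θ R Q N m χ (sgm R Q + t * I) -
      (∑ i ∈ Finset.range (2 * N + 1), (qm N m i : ℂ) / ((Real.log Q : ℝ) : ℂ) ^ i *
        iteratedDeriv i (Zx χ) (sgm R Q + t * I)) *
      (EP P χ.ψ (sgm R Q + t * I) * mlz P (Q ^ θ) χ.ψ (1 / 2 + t * I))‖ ^ 2) ≤ δ * Q ^ 2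

/-- LEB: the averaged values and the polynomial in the derivatives. -/
def T_LEB : Prop := ∀ (K : Type) [Field K] [NumberField K] [IQ K] (P : ℝ) (W : ℝ → ℝ)
  (k : Ideal (𝓞 K)) (θ e R : ℝ) (N : ℕ) (m : ℕ → ℝ), (SP K P).Nonempty → IsW W → 0 < W1 W →
  Sm' P k → Par θ e → 0 < R → 0 < 1 + pm N m (1 / 2) → ∀ δ T : ℝ, 0 < δ → 0 < T →
  ∃ Q₀ : ℝ, 2 ≤ Q₀ ∧ ∀ Q : ℝ, Q₀ ≤ Q → ∀ t : ℝ, |t| ≤ T →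
  FW P Q W k (fun χ => ‖av P θ R Q N m χ t -
      (∑ i ∈ Finset.range (2 * N + 1), (qm N m i : ℂ) / ((Real.log Q : ℝ) : ℂ) ^ i *
        iteratedDeriv i (Zx χ) (sgm R Q + t * I)) *
      (EP P χ.ψ (sgm R Q + t * I) * mlz P (Q ^ θ) χ.ψ (1 / 2 + t * I))‖ ^ 2) ≤ δ * Q ^ 2

/-- LE2: the auxiliary function and the averaged values. -/
def T_LE2 : Prop := ∀ (K : Type) [Field K] [NumberField K] [IQ K] (P : ℝ) (W : ℝ → ℝ)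
  (k : Ideal (𝓞 K)) (θ e R : ℝ) (N : ℕ) (m : ℕ → ℝ), (SP K P).Nonempty → IsW W → 0 < W1 W →
  Sm' P k → Par θ e → 0 < R → 0 < 1 + pm N m (1 / 2) → ∀ δ T : ℝ, 0 < δ → 0 < T →
  ∃ Q₀ : ℝ, 2 ≤ Q₀ ∧ ∀ Q : ℝ, Q₀ ≤ Q → ∀ t : ℝ, |t| ≤ T →
  FW P Q W k (fun χ => ‖fP P θ R Q N m χ (sgm R Q + t * I) - av P θ R Q N m χ t‖ ^ 2) ≤
    δ * Q ^ 2

/-- LEF: the mean square on the left line. -/
def T_LEF : Prop := ∀ (K : Type) [Field K] [NumberField K] [IQ K] (P : ℝ) (W : ℝ → ℝ)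
  (k : Ideal (𝓞 K)) (θ e R : ℝ) (N : ℕ) (m : ℕ → ℝ), (SP K P).Nonempty → IsW W → 0 < W1 W →
  Sm' P k → Par θ e → 0 < R → 0 < 1 + pm N m (1 / 2) → ∀ δ T : ℝ, 0 < δ → 0 < T →
  ∃ Q₀ : ℝ, 2 ≤ Q₀ ∧ ∀ Q : ℝ, Q₀ ≤ Q → ∀ u : ℝ, |u| ≤ T →
  FW P Q W k (fun χ => ‖fP P θ R Q N m χ (sgm R Q + u * I)‖ ^ 2) ≤
    cQ N m R θ * A0 P Q W k + δ * Q ^ 2

/-- FBF: the auxiliary function far to the right. -/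
def T_FBF : Prop := ∀ (K : Type) [Field K] [NumberField K] [IQ K] (P : ℝ) (N : ℕ) (m : ℕ → ℝ)
  (θ R κ₁ κ₂ : ℝ), 0 < 1 + pm N m (1 / 2) → 0 < R → 0 < θ → 0 < κ₁ → 0 < κ₂ →
  ∃ C b₀ : ℝ, 1 ≤ C ∧ 4 ≤ b₀ ∧ ∀ b T : ℝ, b₀ ≤ b → 0 < T → ∃ Q₀ : ℝ, 2 ≤ Q₀ ∧
  ∀ Q : ℝ, Q₀ ≤ Q → ∀ χ : RCC K, χ.f ≠ ⊤ → κ₁ * Q ≤ nm χ.f → nm χ.f ≤ κ₂ * Q →
  ∀ s : ℂ, 1 / 4 < s.re → s.re < 2 * b → |s.im| < T →
    DifferentiableAt ℂ (fP P θ R Q N m χ) s ∧ (4 ≤ s.re → ‖fP P θ R Q N m χ s‖ ≤ C) ∧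
    (s.re = b → fP P θ R Q N m χ s ≠ 0 ∧
      |Real.log ‖fP P θ R Q N m χ s‖| ≤ C * (2 : ℝ) ^ (-b) ∧
      ‖deriv (fP P θ R Q N m χ) s‖ ≤ C * (2 : ℝ) ^ (-b) * ‖fP P θ R Q N m χ s‖)

/-- INM: mean squares of the auxiliary function. -/
def T_INM : Prop := ∀ (K : Type) [Field K] [NumberField K] [IQ K] (P : ℝ) (W : ℝ → ℝ)
  (k : Ideal (𝓞 K)) (θ e R : ℝ) (N : ℕ) (m : ℕ → ℝ), (SP K P).Nonempty → IsW W → 0 < W1 W →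
  Sm' P k → Par θ e → 0 < R → 0 < 1 + pm N m (1 / 2) → ∃ C b₀ : ℝ, 1 ≤ C ∧ 4 ≤ b₀ ∧
  ∀ b T : ℝ, b₀ ≤ b → 0 < T → ∃ Q₀ : ℝ, 2 ≤ Q₀ ∧ ∀ Q : ℝ, Q₀ ≤ Q → ∀ x t : ℝ,
  sgm R Q ≤ x → x ≤ b → |t| ≤ T →
  FW P Q W k (fun χ => ‖fP P θ R Q N m χ (x + t * I)‖ ^ 2) ≤ C * Q ^ 2

end

end Pool.Agent.H65.CZF
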