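import Pool.Agent.H65.CZF.TA
import Pool.Agent.H33.HH.Uni

/-!
# Critical zeros of the complete family: targets, part B (assembly)
-/

set_option autoImplicit false

open NumberField NumberField.InfinitePlace Complex Filter Topology MeasureTheory Set

namespace Pool.Agent.H65.CZF

open Pool.Agent.H28.RC Pool.Agent.H37.CV Pool.Agent.H33.HH Pool.Agent.H33.HC
open Pool.Agent.H65.CRZ (zc St SZ Zx cA Bm b0 cc)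
open Pool.Agent.H65.CRG (LFg VQ cQ kn pm qm CZ)

noncomputable section

/-- CNF: the constant. -/
def T_CNF : Prop := 1 ≤ cc (815 / 1000) (908 / 1000) (999 / 1000) ∧
  5601 / 10000 < 1 - Real.log (cc (815 / 1000) (908 / 1000) (999 / 1000)) / (815 / 1000)

/-- FMF: the zeros on the critical line, for one smooth part `k` of the conductor. -/
def T_FMF : Prop := ∀ (K : Type) [Field K] [NumberField K] [IQ K] (W : ℝ → ℝ) (N : ℕ)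
  (m : ℕ → ℝ) (R θ e : ℝ), IsW W → 0 < W1 W → 0 < 1 + pm N m (1 / 2) → 0 < R → Par θ e →
  ∀ ε : ℝ, 0 < ε → ∃ P₀ : ℝ, ∀ P : ℝ, P₀ ≤ P → ∀ k : Ideal (𝓞 K), Sm' P k →
  ∃ T₀ : ℝ, 0 < T₀ ∧ ∀ T : ℝ, T₀ ≤ T → ∃ Q₀ : ℝ, 2 ≤ Q₀ ∧ ∀ Q : ℝ, Q₀ ≤ Q →
  (1 - Real.log (cQ N m R θ) / R - ε) * (T / Real.pi * (Real.log Q / 2)) * A0 P Q W k ≤
    FW P Q W k (fun χ => ((CZ (Zx χ) (VQ 1 N m (cA K χ.f) (Zx χ)) 0 T).ncard : ℝ))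

/-- SMQ: the simple zeros, for one smooth part `k` of the conductor. -/
def T_SMQ : Prop := ∀ (K : Type) [Field K] [NumberField K] [IQ K] (W : ℝ → ℝ), IsW W →
  0 < W1 W → ∃ P₀ : ℝ, ∀ P : ℝ, P₀ ≤ P → ∀ k : Ideal (𝓞 K), Sm' P k →
  ∃ T₀ : ℝ, 0 < T₀ ∧ ∀ T : ℝ, T₀ ≤ T → ∃ Q₀ : ℝ, 2 ≤ Q₀ ∧ ∀ Q : ℝ, Q₀ ≤ Q →
  5601 / 10000 * (T / Real.pi * (Real.log Q / 2)) * A0 P Q W k ≤ FW P Q W k (ns T)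

/-- LWZ: the simple zeros, for all the characters of one field. -/
def T_LWZ : Prop := ∀ (K : Type) [Field K] [NumberField K] [IQ K], ∃ T₀ : ℝ, 0 < T₀ ∧
  ∀ T : ℝ, T₀ ≤ T → ∀ B : ℝ, ∃ x₀ : ℝ, 2 ≤ x₀ ∧ ∀ x : ℝ, x₀ ≤ x → (Al K x).Finite ∧
  56008 / 100000 * (T / Real.pi * (Real.log x / 2)) * ((Al K x).ncard : ℝ) ≤
    ∑ᶠ χ ∈ {χ : RCC K | χ ∈ Al K x ∧ B ≤ nm χ.f}, ns T χ

/-- KAZ: the simple zeros, for the characters of one field which are not invariant. -/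
def T_KAZ : Prop := ∀ (K : Type) [Field K] [NumberField K] [IQ K], ∃ T₀ : ℝ, 0 < T₀ ∧
  ∀ T : ℝ, T₀ ≤ T → ∃ x₀ : ℝ, 2 ≤ x₀ ∧ ∀ x : ℝ, x₀ ≤ x → (Ui K x).Finite ∧
  56006 / 100000 * (T / Real.pi * (Real.log x / 2)) * ((Ui K x).ncard : ℝ) ≤
    ∑ᶠ χ ∈ Ui K x, ns T χ

/-- UPK: the upper bound for the number of the zeros, for one field. -/
def T_UPK : Prop := ∀ ε : ℝ, 0 < ε → ∃ T₀ : ℝ, 0 < T₀ ∧ ∀ T : ℝ, T₀ ≤ T →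
  ∀ (K : Type) [Field K] [NumberField K] [IQ K], ∃ x₀ : ℝ, 2 ≤ x₀ ∧ ∀ x : ℝ, x₀ ≤ x →
  ∑ᶠ χ ∈ Ui K x, nz T χ ≤ (1 + ε) * (T / Real.pi * (Real.log x / 2)) * ((Ui K x).ncard : ℝ)

open scoped Classical in
/-- TLZ: the zeros of the large discriminants. -/
def T_TLZ : Prop := ∃ C T₀ : ℝ, 0 ≤ C ∧ 0 < T₀ ∧ ∀ T : ℝ, T₀ ≤ T → ∀ (D : Set ℤ),
  (∀ d ∈ D, IsFund d ∧ d < 0) → ∀ (K : ℤ → Type) [∀ d, Field (K d)] [∀ d, NumberField (K d)],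
  (∀ d ∈ D, Module.finrank ℚ (K d) = 2 ∧ discr (K d) = d) → ∃ B : ℝ, 0 ≤ B ∧
  ∀ X Y : ℝ, 2 ≤ X → 1 ≤ Y →
  ∑ d ∈ (FD D X).filter (fun d : ℤ => Y < |(d : ℝ)|),
    ∑ᶠ χ ∈ Ui (K d) (X / |(d : ℝ)|), nz T χ ≤
      C * T * Real.log X * X ^ 2 * Y ^ (-(1 / 4) : ℝ) + B

/-- ALZ: more than 56 per cent of the zeros of the complete family are simple and on the critical
line. -/
def T_ALZ : Prop := ∀ (D : Set ℤ), (∀ d ∈ D, IsFund d ∧ d < 0) → D.Nonempty →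
  ∀ (K : ℤ → Type) [∀ d, Field (K d)] [∀ d, NumberField (K d)],
  (∀ d ∈ D, Module.finrank ℚ (K d) = 2 ∧ discr (K d) = d) →
  ∃ T₀ : ℝ, 0 < T₀ ∧ ∀ T : ℝ, T₀ ≤ T → ∃ X₀ : ℝ, ∀ X : ℝ, X₀ ≤ X →
  (∀ d ∈ FD D X, (Ui (K d) (X / |(d : ℝ)|)).Finite ∧ ∀ χ ∈ Ui (K d) (X / |(d : ℝ)|),
    IsEnt χ (Zx χ) ∧ {ρ : ℂ | ρ ∈ St T ∧ Zx χ ρ = 0}.Finite ∧ (SZ (Zx χ) 0 T).Finite) ∧
  0 < ∑ d ∈ FD D X, ∑ᶠ χ ∈ Ui (K d) (X / |(d : ℝ)|), nz T χ ∧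
  56 / 100 * ∑ d ∈ FD D X, ∑ᶠ χ ∈ Ui (K d) (X / |(d : ℝ)|), nz T χ ≤
    ∑ d ∈ FD D X, ∑ᶠ χ ∈ Ui (K d) (X / |(d : ℝ)|), ns T χ

end

end Pool.Agent.H65.CZF
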